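import Mathlib

/-!
# The layer lemma

If at every level `W ≥ W0` the total weight of the edges of weight `≤ W` is at most the total weight
of the vertices of weight `≤ W` plus `K`, then there are at most `#vertices + K / W0` edges.
-/

open Finset

namespace Pool.Agent.P325d

theorem layer_aux {J X : Type} [DecidableEq J] [DecidableEq X] (s : Finset J) (t : Finset X) (M : J → ℝ)
    (w : X → ℝ) (W0 K : ℝ) (hW0 : 0 < W0) (hM : ∀ j ∈ s, W0 ≤ M j)
    (hK : 0 ≤ K)
    (h : ∀ W, W0 ≤ W → (∑ j ∈ s with M j ≤ W, M j) ≤ (∑ x ∈ t with w x ≤ W, w x) + K) :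
    ∀ s' : Finset J, s' ⊆ s → ∀ W, W0 ≤ W → (∀ j ∈ s', M j ≤ W) →
      (s'.card : ℝ) + ((∑ x ∈ t with w x ≤ W, w x) + K - ∑ j ∈ s', M j) / W ≤
        ((t.filter (fun x => w x ≤ W)).card : ℝ) + K / W0 := by
  intro s'
  induction s' using Finset.induction_on_max_value M with
  | empty =>
    intro _ W hW _
    have hWp : 0 < W := lt_of_lt_of_le hW0 hW
    simp only [card_empty, Nat.cast_zero, zero_add, sum_empty, sub_zero]
    have h1 : (∑ x ∈ t with w x ≤ W, w x) ≤ ((t.filter (fun x => w x ≤ W)).card : ℝ) * W := by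
      have := Finset.sum_le_card_nsmul (t.filter (fun x => w x ≤ W)) w W
        (fun x hx => (Finset.mem_filter.1 hx).2)
      simpa [nsmul_eq_mul] using this
    rw [add_div]
    have h2 : (∑ x ∈ t with w x ≤ W, w x) / W ≤ ((t.filter (fun x => w x ≤ W)).card : ℝ) := by
      rw [div_le_iff₀ hWp]; exact h1
    have h3 : K / W ≤ K / W0 := div_le_div_of_nonneg_left hK hW0 hW
    linarith
  | insert a s' ha hmax ih =>
    intro hsub W hW hle
    have has : a ∈ s := hsub (mem_insert_self a s')
    have hWa : M a ≤ W := hle a (mem_insert_self a s')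
    have hMa : W0 ≤ M a := hM a has
    have hMap : 0 < M a := lt_of_lt_of_le hW0 hMa
    have hWp : 0 < W := lt_of_lt_of_le hW0 hW
    have ih' := ih (fun j hj => hsub (mem_insert_of_mem hj)) (M a) hMa hmax
    rw [card_insert_of_notMem ha, sum_insert ha]
    push_cast
    -- the set of vertices of weight in `(M a, W]`
    have hsplit : (t.filter (fun x => w x ≤ W)) =
        (t.filter (fun x => w x ≤ M a)) ∪ (t.filter (fun x => M a < w x ∧ w x ≤ W)) := by
      ext x
      simp only [mem_filter, mem_union]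
      constructor
      · rintro ⟨hx, hw⟩
        rcases le_or_gt (w x) (M a) with h1 | h1
        · exact Or.inl ⟨hx, h1⟩
        · exact Or.inr ⟨hx, h1, hw⟩
      · rintro (⟨hx, hw⟩ | ⟨hx, h1, hw⟩)
        · exact ⟨hx, hw.trans hWa⟩
        · exact ⟨hx, hw⟩
    have hdisj : Disjoint (t.filter (fun x => w x ≤ M a))
        (t.filter (fun x => M a < w x ∧ w x ≤ W)) := by
      rw [Finset.disjoint_left]
      intro x hx hx'
      simp only [mem_filter] at hx hx'
      linarith [hx.2, hx'.2.1]
    have hcard : ((t.filter (fun x => w x ≤ W)).card : ℝ) =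
        ((t.filter (fun x => w x ≤ M a)).card : ℝ) +
        ((t.filter (fun x => M a < w x ∧ w x ≤ W)).card : ℝ) := by
      rw [hsplit, card_union_of_disjoint hdisj]; push_cast; ring
    have hsum : (∑ x ∈ t with w x ≤ W, w x) = (∑ x ∈ t with w x ≤ M a, w x) +
        ∑ x ∈ t with M a < w x ∧ w x ≤ W, w x := by
      rw [hsplit, sum_union hdisj]
    have h1 : (∑ x ∈ t with M a < w x ∧ w x ≤ W, w x) ≤
        ((t.filter (fun x => M a < w x ∧ w x ≤ W)).card : ℝ) * W := by
      have := Finset.sum_le_card_nsmul (t.filter (fun x => M a < w x ∧ w x ≤ W)) w W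
        (fun x hx => (Finset.mem_filter.1 hx).2.2)
      simpa [nsmul_eq_mul] using this
    set B := (∑ x ∈ t with w x ≤ M a, w x) + K with hB
    set A := ∑ j ∈ s', M j with hA
    set n1 := ((t.filter (fun x => M a < w x ∧ w x ≤ W)).card : ℝ) with hn1
    have hD : 0 ≤ B - A - M a := by
      have h2 := h (M a) hMa
      have h3 : M a + A ≤ ∑ j ∈ s with M j ≤ M a, M j := by
        rw [hA, ← sum_insert ha]
        refine sum_le_sum_of_subset_of_nonneg ?_ ?_
        · intro j hj
          rw [mem_filter]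
          refine ⟨hsub hj, ?_⟩
          rcases mem_insert.1 hj with rfl | hj
          · exact le_rfl
          · exact hmax j hj
        · intro j hj _
          exact (lt_of_lt_of_le hW0 (hM j (mem_filter.1 hj).1)).le
      linarith
    have h4 : (B - A - M a) / W ≤ (B - A - M a) / M a :=
      div_le_div_of_nonneg_left hD hMap hWa
    have h5 : (B - A - M a) / M a = (B - A) / M a - 1 := by
      field_simp
    have h6 : (∑ x ∈ t with M a < w x ∧ w x ≤ W, w x) / W ≤ n1 := by
      rw [div_le_iff₀ hWp]; exact h1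
    have h7 : ((∑ x ∈ t with w x ≤ W, w x) + K - (M a + A)) / W =
        (B - A - M a) / W + (∑ x ∈ t with M a < w x ∧ w x ≤ W, w x) / W := by
      rw [hsum, hB, ← add_div]; congr 1; ring
    rw [h7, hcard]
    linarith

theorem layer {J X : Type} (s : Finset J) (t : Finset X) (M : J → ℝ)
    (w : X → ℝ) (W0 K : ℝ) (hW0 : 0 < W0) (hM : ∀ j ∈ s, W0 ≤ M j)
    (hK : 0 ≤ K)
    (h : ∀ W, W0 ≤ W → (∑ j ∈ s with M j ≤ W, M j) ≤ (∑ x ∈ t with w x ≤ W, w x) + K) :
    (s.card : ℝ) ≤ t.card + K / W0 := by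
  classical
  obtain ⟨W, hW0W, hW⟩ : ∃ W, W0 ≤ W ∧ ∀ j ∈ s, M j ≤ W := by
    refine ⟨W0 + ∑ j ∈ s, M j, ?_, ?_⟩
    · have : 0 ≤ ∑ j ∈ s, M j := sum_nonneg (fun j hj => (hW0.le.trans (hM j hj)))
      linarith
    · intro j hj
      have := Finset.single_le_sum (f := M) (fun i hi => hW0.le.trans (hM i hi)) hj
      linarith
  have h1 := layer_aux s t M w W0 K hW0 hM hK h s (Subset.refl _) W hW0W hW
  have hWp : 0 < W := lt_of_lt_of_le hW0 hW0W
  have h2 : 0 ≤ ((∑ x ∈ t with w x ≤ W, w x) + K - ∑ j ∈ s, M j) / W := by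
    apply div_nonneg _ hWp.le
    have h3 := h W hW0W
    have h4 : (s.filter (fun j => M j ≤ W)) = s := filter_true_of_mem hW
    rw [h4] at h3
    linarith
  have h5 : ((t.filter (fun x => w x ≤ W)).card : ℝ) ≤ t.card := by
    exact_mod_cast card_filter_le _ _
  linarith

end Pool.Agent.P325d
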