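import Mathlib
import Pool.Agent.Lib.P325f1f.Dich.Games

/-!
# Sparse copies of a unique game

`Game`, `Game.satFrac`, `Game.value` are in `Pool/Agent/Lib/P325f1f/Dich/Games.lean`.
-/

open Finset

namespace Pool.Agent.P325d

open Pool.Agent.P325f1f.Dich

/-- A routing of the bipartite multigraph with edge set `ι` and ends `src`, `dst`. Every edge `e` has
`T * d` numbered slots `(e, i, k)`; a routing permutes the slots of the edges at every left vertex
and, separately, the slots of the edges at every right vertex. -/
structure Routing {U W ι : Type} (src : ι → U) (dst : ι → W) (T d : ℕ) where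
  /-- the permutation on the left -/
  left : Equiv.Perm (ι × Fin T × Fin d)
  /-- the permutation on the right -/
  right : Equiv.Perm (ι × Fin T × Fin d)
  /-- the left permutation keeps the left vertex -/
  src_left : ∀ h, src (left h).1 = src h.1
  /-- the right permutation keeps the right vertex -/
  dst_right : ∀ h, dst (right h).1 = dst h.1

theorem Routing.ext' {U W ι : Type} {src : ι → U} {dst : ι → W} {T d : ℕ}
    (r r' : Routing src dst T d) (h1 : r.left = r'.left) (h2 : r.right = r'.right) : r = r' := by
  cases r; cases r'; cases h1; cases h2; rfl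

noncomputable instance {U W ι : Type} [Fintype ι] (src : ι → U) (dst : ι → W) (T d : ℕ) :
    Fintype (Routing src dst T d) := by
  classical
  exact Fintype.ofInjective
    (fun r : Routing src dst T d => (r.left, r.right))
    (fun r r' h => Routing.ext' r r' (congrArg Prod.fst h) (congrArg Prod.snd h))

/-- The sparse copy of the game `I` given by the routing `r`. The left vertex `u` is replaced by the
`T * deg u` copies `(e, i)` with `src e = u`, the right vertex `w` by the copies `(e, i)` with
`dst e = w`. For every slot `h = (e, i, k)` there is an edge with the constraint of `e`: if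
`r.left h = (e', i', k')` and `r.right h = (e'', i'', k'')` it joins the left copy `(e', i')` to the
right copy `(e'', i'')`. -/
def cloudGame {U W Ω ι : Type} {T d : ℕ} (I : Game U W Ω ι) (r : Routing I.src I.dst T d) :
    Game (ι × Fin T) (ι × Fin T) Ω (ι × Fin T × Fin d) where
  src h := ((r.left h).1, (r.left h).2.1)
  dst h := ((r.right h).1, (r.right h).2.1)
  perm h := I.perm h.1

section basics

variable {U W Ω ι : Type} {T d : ℕ}

theorem copy_card [Fintype ι] [DecidableEq ι] (p : Equiv.Perm (ι × Fin T × Fin d))
    (c : ι × Fin T) :
    (univ.filter (fun h : ι × Fin T × Fin d => ((p h).1, (p h).2.1) = c)).card = d := by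
  classical
  have h1 : (univ.filter (fun h : ι × Fin T × Fin d => ((p h).1, (p h).2.1) = c)).card =
      (univ.filter (fun h : ι × Fin T × Fin d => (h.1, h.2.1) = c)).card := by
    refine Finset.card_bij (fun h _ => p h) ?_ ?_ ?_
    · intro h hh
      simpa using hh
    · intro a _ b _ hab
      exact p.injective hab
    · intro b hb
      refine ⟨p.symm b, ?_, by simp⟩
      simpa using hb
  rw [h1]
  have h2 : (univ.filter (fun h : ι × Fin T × Fin d => (h.1, h.2.1) = c)) =
      (univ : Finset (Fin d)).image (fun k => (c.1, c.2, k)) := by
    ext h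
    obtain ⟨e, i, k⟩ := h
    obtain ⟨e', i'⟩ := c
    simp only [mem_filter, mem_univ, true_and, mem_image, Prod.mk.injEq]
    constructor
    · rintro ⟨rfl, rfl⟩
      exact ⟨k, rfl, rfl, rfl⟩
    · rintro ⟨k', rfl, rfl, rfl⟩
      exact ⟨rfl, rfl⟩
  rw [h2, card_image_of_injective]
  · simp
  · intro a b hab
    simpa using hab

/-- Every left copy has exactly `d` edges. -/
theorem regular_left [Fintype ι] [DecidableEq ι] (I : Game U W Ω ι)
    (r : Routing I.src I.dst T d) (c : ι × Fin T) :
    (univ.filter (fun h => (cloudGame I r).src h = c)).card = d := copy_card r.left c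

/-- Every right copy has exactly `d` edges. -/
theorem regular_right [Fintype ι] [DecidableEq ι] (I : Game U W Ω ι)
    (r : Routing I.src I.dst T d) (c : ι × Fin T) :
    (univ.filter (fun h => (cloudGame I r).dst h = c)).card = d := copy_card r.right c

/-- A labeling of `I` gives a labeling of the sparse copy of the same quality. -/
theorem satFrac_lift [Fintype ι] (hT : 1 ≤ T) (hd : 1 ≤ d) (I : Game U W Ω ι)
    (r : Routing I.src I.dst T d) (x : U → Ω) (y : W → Ω) :
    I.satFrac x y = (cloudGame I r).satFrac (fun c => x (I.src c.1)) (fun c => y (I.dst c.1)) := by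
  classical
  have h1 : ∀ h : ι × Fin T × Fin d,
      ((cloudGame I r).perm h (x (I.src ((cloudGame I r).src h).1)) =
        y (I.dst ((cloudGame I r).dst h).1)) ↔
      (I.perm h.1 (x (I.src h.1)) = y (I.dst h.1)) := by
    intro h
    simp only [cloudGame]
    rw [r.src_left, r.dst_right]
  have h2 : (univ.filter (fun h : ι × Fin T × Fin d =>
      (cloudGame I r).perm h (x (I.src ((cloudGame I r).src h).1)) =
        y (I.dst ((cloudGame I r).dst h).1))) =
      (univ.filter (fun e => I.perm e (x (I.src e)) = y (I.dst e))) ×ˢ
        (univ : Finset (Fin T × Fin d)) := by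
    ext h
    simp only [mem_filter, mem_univ, true_and, mem_product, and_true]
    exact h1 h
  unfold Game.satFrac
  have h3 : ((univ.filter (fun h : ι × Fin T × Fin d =>
      (cloudGame I r).perm h (x (I.src ((cloudGame I r).src h).1)) =
        y (I.dst ((cloudGame I r).dst h).1))).card : ℝ) =
      ((univ.filter (fun e => I.perm e (x (I.src e)) = y (I.dst e))).card : ℝ) *
        ((T : ℝ) * d) := by
    rw [h2, card_product]
    simp
  have hT' : (0 : ℝ) < T := by exact_mod_cast hT
  have hd' : (0 : ℝ) < d := by exact_mod_cast hd
  have h4 : (Fintype.card (ι × Fin T × Fin d) : ℝ) = Fintype.card ι * ((T : ℝ) * d) := by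
    simp
  rw [h4]
  convert (mul_div_mul_right _ _ (by positivity : ((T : ℝ) * d) ≠ 0)).symm using 1
  congr 1

theorem value_lift [Fintype ι] [Nonempty Ω] (hT : 1 ≤ T) (hd : 1 ≤ d) (I : Game U W Ω ι)
    (r : Routing I.src I.dst T d) : I.value ≤ (cloudGame I r).value := by
  unfold Game.value
  have : Nonempty ((U → Ω) × (W → Ω)) := inferInstance
  refine ciSup_le (fun p => ?_)
  rw [satFrac_lift hT hd I r p.1 p.2]
  exact le_value (cloudGame I r) _ _

end basics

end Pool.Agent.P325d
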