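import Mathlib

/-!
# Frequencies of labels and the profile sum

For a labeling `g` of finitely many copies lying over base vertices, the product over all copies of
the frequency of the own label, summed over all labelings, is at most the number of profiles.
-/

open Finset

namespace Pool.Agent.P325d

variable {V C A : Type} [Fintype C] [DecidableEq V] [DecidableEq A]

/-- The number of copies over `v`. -/
def num (base : C → V) (v : V) : ℕ := (univ.filter (fun c => base c = v)).card

/-- The number of copies over `v` with label `a`. -/
def cnt (base : C → V) (g : C → A) (v : V) (a : A) : ℕ :=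
  (univ.filter (fun c => base c = v ∧ g c = a)).card

/-- The frequency of the label `a` among the copies over `v`. -/
noncomputable def freq (base : C → V) (g : C → A) (v : V) (a : A) : ℝ :=
  (cnt base g v a : ℝ) / num base v

theorem cnt_le_num (base : C → V) (g : C → A) (v : V) (a : A) : cnt base g v a ≤ num base v := by
  unfold cnt num
  apply card_le_card
  intro c hc
  simp only [mem_filter, mem_univ, true_and] at hc ⊢
  exact hc.1

theorem freq_nonneg (base : C → V) (g : C → A) (v : V) (a : A) : 0 ≤ freq base g v a := by
  unfold freq; positivity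

theorem freq_le_one (base : C → V) (g : C → A) (v : V) (a : A) : freq base g v a ≤ 1 := by
  unfold freq
  apply div_le_one_of_le₀ _ (Nat.cast_nonneg _)
  exact_mod_cast cnt_le_num base g v a

theorem num_pos (base : C → V) (c : C) : 0 < num base (base c) := by
  unfold num
  exact card_pos.2 ⟨c, by simp⟩

theorem cnt_pos (base : C → V) (g : C → A) (c : C) : 0 < cnt base g (base c) (g c) := by
  unfold cnt
  exact card_pos.2 ⟨c, by simp⟩

theorem freq_pos (base : C → V) (g : C → A) (c : C) : 0 < freq base g (base c) (g c) := by
  unfold freq
  have := num_pos base c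
  have := cnt_pos base g c
  positivity

variable [Fintype A]

theorem sum_cnt (base : C → V) (g : C → A) (v : V) : ∑ a, cnt base g v a = num base v := by
  unfold cnt num
  rw [Finset.card_eq_sum_card_fiberwise (f := g) (t := univ) (fun _ _ => by simp)]
  refine sum_congr rfl (fun a _ => ?_)
  rw [filter_filter]

theorem sum_freq_le_one (base : C → V) (g : C → A) (v : V) : ∑ a, freq base g v a ≤ 1 := by
  unfold freq
  rw [← sum_div, ← Nat.cast_sum, sum_cnt]
  exact div_self_le_one _

theorem sum_freq (base : C → V) (g : C → A) (c : C) : ∑ a, freq base g (base c) a = 1 := by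
  unfold freq
  rw [← sum_div, ← Nat.cast_sum, sum_cnt]
  have := num_pos base c
  exact div_self (by positivity)

variable [Fintype V] [DecidableEq C]

theorem profile_sum (base : C → V) :
    ∑ g : C → A, ∏ c, freq base g (base c) (g c) ≤
      ∏ v : V, ((num base v : ℝ) + 1) ^ Fintype.card A := by
  classical
  let P : (C → A) → (∀ v : V, A → Fin (num base v + 1)) := fun g v a =>
    ⟨cnt base g v a, Nat.lt_succ_of_le (cnt_le_num base g v a)⟩
  rw [← Finset.sum_fiberwise univ P]
  have h1 : ∀ j : (∀ v : V, A → Fin (num base v + 1)),
      ∑ g ∈ univ with P g = j, ∏ c, freq base g (base c) (g c) ≤ 1 := by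
    intro j
    rcases (univ.filter (fun g => P g = j)).eq_empty_or_nonempty with h0 | ⟨g0, hg0⟩
    · rw [h0, sum_empty]; exact zero_le_one
    · rw [mem_filter] at hg0
      have hj : ∀ v a, ((j v a : ℕ) : ℝ) = cnt base g0 v a := by
        intro v a
        rw [← hg0.2]
      calc ∑ g ∈ univ with P g = j, ∏ c, freq base g (base c) (g c)
          = ∑ g ∈ univ with P g = j, ∏ c, freq base g0 (base c) (g c) := by
            refine sum_congr rfl (fun g hg => prod_congr rfl (fun c _ => ?_))
            rw [mem_filter] at hg
            unfold freq
            congr 1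
            rw [← hj, ← hg.2]
        _ ≤ ∑ g : C → A, ∏ c, freq base g0 (base c) (g c) := by
            refine sum_le_sum_of_subset_of_nonneg (filter_subset _ _) (fun g _ _ => ?_)
            exact prod_nonneg (fun c _ => freq_nonneg _ _ _ _)
        _ = ∏ c, ∑ a, freq base g0 (base c) a := by
            rw [Finset.prod_univ_sum, Fintype.piFinset_univ]
        _ = 1 := by
            rw [prod_congr rfl (fun c _ => sum_freq base g0 c)]
            simp
  calc ∑ j, ∑ g ∈ univ with P g = j, ∏ c, freq base g (base c) (g c)
      ≤ ∑ _j : (∀ v : V, A → Fin (num base v + 1)), (1 : ℝ) := sum_le_sum (fun j _ => h1 j)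
    _ = ∏ v : V, ((num base v : ℝ) + 1) ^ Fintype.card A := by
        rw [sum_const, nsmul_eq_mul, mul_one, card_univ, Fintype.card_pi]
        push_cast
        refine prod_congr rfl (fun v _ => ?_)
        rw [Fintype.card_fun, Fintype.card_fin]
        push_cast
        ring

omit [Fintype A] [DecidableEq C] in
/-- The factor of an erased label is harmless. -/
theorem none_prod (base : C → V) (g : C → A) (z : A) :
    Real.exp (-(Fintype.card C : ℝ)) ≤
      ∏ c ∈ univ.filter (fun c => g c = z), freq base g (base c) (g c) := by
  classical
  have h1 : ∏ c ∈ univ.filter (fun c => g c = z), freq base g (base c) (g c) =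
      ∏ v : V, (freq base g v z) ^ (cnt base g v z) := by
    rw [← Finset.prod_fiberwise _ base]
    refine prod_congr rfl (fun v _ => ?_)
    rw [filter_filter]
    have : ∀ c ∈ univ.filter (fun c => g c = z ∧ base c = v),
        freq base g (base c) (g c) = freq base g v z := by
      intro c hc
      simp only [mem_filter, mem_univ, true_and] at hc
      rw [hc.1, hc.2]
    rw [prod_congr rfl this, prod_const]
    congr 1
    unfold cnt
    congr 1
    ext c
    simp only [mem_filter, mem_univ, true_and]
    tauto
  have h2 : (Fintype.card C : ℝ) = ∑ v : V, (num base v : ℝ) := by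
    unfold num
    rw [← Nat.cast_sum, ← Finset.card_eq_sum_card_fiberwise (f := base) (s := univ) (t := univ)
      (fun _ _ => by simp), card_univ]
  rw [h1, h2, ← sum_neg_distrib, Real.exp_sum]
  refine prod_le_prod (fun v _ => (Real.exp_pos _).le) (fun v _ => ?_)
  unfold freq
  rcases Nat.eq_zero_or_pos (cnt base g v z) with h0 | hpos
  · rw [h0, pow_zero]
    exact Real.exp_le_one_iff.2 (by simp)
  · have hn : 0 < num base v := lt_of_lt_of_le hpos (cnt_le_num base g v z)
    set k := cnt base g v z
    set n := num base v
    have hk : (0 : ℝ) < k := by exact_mod_cast hpos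
    have hn' : (0 : ℝ) < n := by exact_mod_cast hn
    have h3 : (n : ℝ) / k ≤ Real.exp ((n : ℝ) / k) := by
      have := Real.add_one_le_exp ((n : ℝ) / k)
      linarith
    have h4 : Real.exp (-((n : ℝ) / k)) ≤ (k : ℝ) / n := by
      rw [Real.exp_neg]
      rw [inv_le_comm₀ (Real.exp_pos _) (by positivity)]
      rw [inv_div]
      exact h3
    calc Real.exp (-(n : ℝ)) = (Real.exp (-((n : ℝ) / k))) ^ k := by
          rw [← Real.exp_nat_mul]
          congr 1
          field_simp
      _ ≤ ((k : ℝ) / n) ^ k := pow_le_pow_left₀ (Real.exp_pos _).le h4 _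

end Pool.Agent.P325d
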