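import Mathlib
import Pool.Agent.Lib.P325d.Defs
import Pool.Agent.Lib.P325d.Profile

/-!
# The number of routings
-/

open Finset

namespace Pool.Agent.P325d

theorem pow_self_le (n : ℕ) : (n : ℝ) ^ n ≤ Real.exp n * (n.factorial : ℝ) := by
  have h := Real.pow_div_factorial_le_exp (n : ℝ) (Nat.cast_nonneg n) n
  rwa [div_le_iff₀ (by exact_mod_cast n.factorial_pos)] at h

theorem one_side {S U : Type} [Fintype S] [DecidableEq S] [Fintype U] [DecidableEq U] (f : S → U) :
    ∏ h : S, (num f (f h) : ℝ) ≤
      Real.exp (Fintype.card S) * (Fintype.card {g : Equiv.Perm S // f ∘ g = f} : ℝ) := by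
  rw [DomMulAct.stabilizer_card]
  have h1 : ∏ h : S, (num f (f h) : ℝ) = ∏ u : U, (num f u : ℝ) ^ (num f u) := by
    rw [← Finset.prod_fiberwise univ f]
    refine prod_congr rfl (fun u _ => ?_)
    have : ∀ c ∈ univ.filter (fun c => f c = u), (num f (f c) : ℝ) = num f u := by
      intro c hc
      rw [(mem_filter.1 hc).2]
    rw [prod_congr rfl this, prod_const]
    rfl
  have h2 : (Fintype.card S : ℝ) = ∑ u : U, (num f u : ℝ) := by
    unfold num
    rw [← Nat.cast_sum, ← Finset.card_eq_sum_card_fiberwise (f := f) (s := univ) (t := univ)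
      (fun _ _ => by simp), card_univ]
  have h3 : ∀ u : U, Fintype.card {a // f a = u} = num f u := by
    intro u
    rw [Fintype.card_subtype]
    rfl
  rw [h1, h2, Real.exp_sum, Nat.cast_prod, ← prod_mul_distrib]
  refine prod_le_prod (fun u _ => by positivity) (fun u _ => ?_)
  rw [h3 u]
  exact pow_self_le _

/-- Routings are pairs of stabilising permutations. -/
def routingEquiv {U W ι : Type} (src : ι → U) (dst : ι → W) (T d : ℕ) :
    Routing src dst T d ≃
      {g : Equiv.Perm (ι × Fin T × Fin d) // (fun h : ι × Fin T × Fin d => src h.1) ∘ g =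
        (fun h : ι × Fin T × Fin d => src h.1)} ×
      {g : Equiv.Perm (ι × Fin T × Fin d) // (fun h : ι × Fin T × Fin d => dst h.1) ∘ g =
        (fun h : ι × Fin T × Fin d => dst h.1)} where
  toFun r := (⟨r.left, funext r.src_left⟩, ⟨r.right, funext r.dst_right⟩)
  invFun p := ⟨p.1.1, p.2.1, fun h => congrFun p.1.2 h, fun h => congrFun p.2.2 h⟩
  left_inv r := by cases r; rfl
  right_inv p := by rfl

theorem card_routing {U W ι : Type} [Fintype ι] [DecidableEq ι] [Fintype U] [DecidableEq U]
    [Fintype W] [DecidableEq W] (src : ι → U) (dst : ι → W) (T d : ℕ) :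
    ∏ h : ι × Fin T × Fin d,
      ((num (fun h : ι × Fin T × Fin d => src h.1) (src h.1) : ℝ) *
        (num (fun h : ι × Fin T × Fin d => dst h.1) (dst h.1) : ℝ)) ≤
      Real.exp (2 * (Fintype.card ι * T * d)) * (Fintype.card (Routing src dst T d) : ℝ) := by
  rw [prod_mul_distrib]
  have h1 := one_side (fun h : ι × Fin T × Fin d => src h.1)
  have h2 := one_side (fun h : ι × Fin T × Fin d => dst h.1)
  have h3 : (Fintype.card (ι × Fin T × Fin d) : ℝ) = Fintype.card ι * T * d := by
    simp [mul_assoc]
  rw [h3] at h1 h2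
  have h4 : (Fintype.card (Routing src dst T d) : ℝ) =
      (Fintype.card {g : Equiv.Perm (ι × Fin T × Fin d) //
        (fun h : ι × Fin T × Fin d => src h.1) ∘ g = (fun h : ι × Fin T × Fin d => src h.1)} : ℝ) *
      (Fintype.card {g : Equiv.Perm (ι × Fin T × Fin d) //
        (fun h : ι × Fin T × Fin d => dst h.1) ∘ g =
          (fun h : ι × Fin T × Fin d => dst h.1)} : ℝ) := by
    rw [Fintype.card_congr (routingEquiv src dst T d), Fintype.card_prod]
    push_cast
    ring
  have h5 : Real.exp (2 * (Fintype.card ι * T * d)) =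
      Real.exp (Fintype.card ι * T * d) * Real.exp (Fintype.card ι * T * d) := by
    rw [← Real.exp_add]; congr 1; ring
  rw [h4, h5]
  calc _ ≤ (Real.exp (Fintype.card ι * T * d) * _) * (Real.exp (Fintype.card ι * T * d) * _) :=
        mul_le_mul h1 h2 (prod_nonneg (fun _ _ => Nat.cast_nonneg _)) (by positivity)
    _ = _ := by ring

end Pool.Agent.P325d
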