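import Mathlib
import Pool.Agent.Lib.P325d.Count

/-!
# Moment bounds for random routings
-/

open Finset

namespace Pool.Agent.P325d

open Pool.Agent.P325f1f.Dich

section slots

variable {ι U : Type} {T d : ℕ} [Fintype ι]

theorem card_slots [DecidableEq ι] (P : ι × Fin T → Prop) [DecidablePred P] :
    (univ.filter (fun h : ι × Fin T × Fin d => P (h.1, h.2.1))).card =
      d * (univ.filter P).card := by
  have h1 : (univ.filter (fun h : ι × Fin T × Fin d => P (h.1, h.2.1))).card =
      ((univ.filter P) ×ˢ (univ : Finset (Fin d))).card := by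
    refine Finset.card_bij (fun h _ => ((h.1, h.2.1), h.2.2)) ?_ ?_ ?_
    · intro h hh
      simpa using hh
    · rintro ⟨a, b, c⟩ _ ⟨a', b', c'⟩ _ h
      simp only [Prod.mk.injEq] at h
      obtain ⟨⟨rfl, rfl⟩, rfl⟩ := h
      rfl
    · rintro ⟨⟨a, b⟩, c⟩ hb
      refine ⟨(a, b, c), ?_, rfl⟩
      simpa using hb
  rw [h1, card_product, card_univ, Fintype.card_fin, mul_comm]

variable [DecidableEq ι] [DecidableEq U] {A : Type} [Fintype A] [DecidableEq A]

theorem slot_sum (src : ι → U) (g : ι × Fin T → A) (u : U) (φ : A → ℝ) :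
    ∑ y ∈ univ.filter (fun y : ι × Fin T × Fin d => src y.1 = u), φ (g (y.1, y.2.1)) =
      (num (fun h : ι × Fin T × Fin d => src h.1) u : ℝ) *
        ∑ a, freq (fun c : ι × Fin T => src c.1) g u a * φ a := by
  rw [← Finset.sum_fiberwise _ (fun y : ι × Fin T × Fin d => g (y.1, y.2.1)), mul_sum]
  refine sum_congr rfl (fun a _ => ?_)
  rw [filter_filter]
  have h1 : ∀ y ∈ univ.filter (fun y : ι × Fin T × Fin d => src y.1 = u ∧ g (y.1, y.2.1) = a),
      φ (g (y.1, y.2.1)) = φ a := by
    intro y hy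
    rw [(mem_filter.1 hy).2.2]
  rw [sum_congr rfl h1, sum_const, nsmul_eq_mul]
  have h2 : (univ.filter (fun y : ι × Fin T × Fin d =>
      src y.1 = u ∧ g (y.1, y.2.1) = a)).card =
      d * cnt (fun c : ι × Fin T => src c.1) g u a := by
    unfold cnt
    exact card_slots (fun c : ι × Fin T => src c.1 = u ∧ g c = a)
  have h3 : num (fun h : ι × Fin T × Fin d => src h.1) u =
      d * num (fun c : ι × Fin T => src c.1) u := by
    unfold num
    exact card_slots (fun c : ι × Fin T => src c.1 = u)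
  rw [h2, h3]
  unfold freq
  rcases Nat.eq_zero_or_pos (num (fun c : ι × Fin T => src c.1) u) with h0 | hpos
  · have h4 : cnt (fun c : ι × Fin T => src c.1) g u a = 0 :=
      Nat.le_zero.1 (h0 ▸ cnt_le_num _ _ _ _)
    rw [h0, h4]
    simp
  · have : ((num (fun c : ι × Fin T => src c.1) u : ℕ) : ℝ) ≠ 0 := by positivity
    push_cast
    field_simp

end slots

/-- `a` and `b` are labels that satisfy the constraint `π`. -/
def Sat {Ω : Type} (π : Equiv.Perm Ω) (a b : Option Ω) : Prop := ∃ ω, a = some ω ∧ b = some (π ω)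

section pairs

variable {Ω : Type} [Fintype Ω] [DecidableEq Ω]

omit [DecidableEq Ω] in
open Classical in
theorem sum_sat (π : Equiv.Perm Ω) (p0 p1 : Option Ω → ℝ) (F : Option Ω → Option Ω → ℝ) :
    ∑ a, p0 a * ∑ b, p1 b * (if Sat π a b then F a b else 0) =
      ∑ ω, p0 (some ω) * p1 (some (π ω)) * F (some ω) (some (π ω)) := by
  rw [Fintype.sum_option]
  have h1 : ∑ b, p1 b * (if Sat π none b then F none b else 0) = 0 := by
    refine sum_eq_zero (fun b _ => ?_)
    rw [if_neg, mul_zero]
    rintro ⟨ω, h, _⟩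
    cases h
  rw [h1, mul_zero, zero_add]
  refine sum_congr rfl (fun ω _ => ?_)
  rw [Finset.sum_eq_single (some (π ω))]
  · rw [if_pos ⟨ω, rfl, rfl⟩, mul_assoc]
  · intro b _ hb
    rw [if_neg, mul_zero]
    rintro ⟨ω', h, h'⟩
    cases h
    exact hb h'
  · intro h
    exact absurd (mem_univ _) h

omit [DecidableEq Ω] in
theorem sum_min_le (π : Equiv.Perm Ω) (p0 p1 : Option Ω → ℝ) (h0 : ∀ a, 0 ≤ p0 a)
    (h1 : ∀ a, 0 ≤ p1 a) (s0 : ∑ a, p0 a ≤ 1) (s1 : ∑ a, p1 a ≤ 1) :
    ∑ ω, p0 (some ω) * p1 (some (π ω)) * (min (p0 (some ω)) (p1 (some (π ω))))⁻¹ ≤ 2 := by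
  have h2 : ∀ ω, p0 (some ω) * p1 (some (π ω)) * (min (p0 (some ω)) (p1 (some (π ω))))⁻¹ ≤
      p0 (some ω) + p1 (some (π ω)) := by
    intro ω
    set x := p0 (some ω) with hx
    set y := p1 (some (π ω)) with hy
    have hx0 : 0 ≤ x := h0 _
    have hy0 : 0 ≤ y := h1 _
    rcases le_total x y with hxy | hxy
    · rw [min_eq_left hxy]
      rcases hx0.eq_or_lt with h | h
      · rw [← h]; simp [hy0]
      · rw [mul_comm x y, mul_assoc, mul_inv_cancel₀ h.ne', mul_one]
        linarith
    · rw [min_eq_right hxy]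
      rcases hy0.eq_or_lt with h | h
      · rw [← h]; simp [hx0]
      · rw [mul_assoc, mul_inv_cancel₀ h.ne', mul_one]
        linarith
  refine (sum_le_sum (fun ω _ => h2 ω)).trans ?_
  rw [sum_add_distrib]
  have h3 : ∑ ω, p0 (some ω) ≤ 1 := by
    rw [Fintype.sum_option] at s0
    linarith [h0 none]
  have h4 : ∑ ω, p1 (some (π ω)) ≤ 1 := by
    rw [Fintype.sum_option] at s1
    rw [Equiv.sum_comp π (fun ω => p1 (some ω))]
    linarith [h1 none]
  linarith

end pairs

section moments

variable {U W Ω ι : Type} {T d : ℕ} [Fintype ι] [DecidableEq ι] [DecidableEq U] [DecidableEq W]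
  [Fintype Ω] [DecidableEq Ω]

/-- The possible positions of the two ends of the edges. -/
def slotPairs (src : ι → U) (dst : ι → W) (T d : ℕ) (h : ι × Fin T × Fin d) :
    Finset ((ι × Fin T × Fin d) × (ι × Fin T × Fin d)) :=
  (univ.filter (fun y : ι × Fin T × Fin d => src y.1 = src h.1)) ×ˢ
    (univ.filter (fun y : ι × Fin T × Fin d => dst y.1 = dst h.1))

/-- The product of the numbers of possible positions. -/
noncomputable def total (src : ι → U) (dst : ι → W) (T d : ℕ) : ℝ :=
  ∏ h : ι × Fin T × Fin d,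
      ((num (fun h : ι × Fin T × Fin d => src h.1) (src h.1) : ℝ) *
        (num (fun h : ι × Fin T × Fin d => dst h.1) (dst h.1) : ℝ))

omit [DecidableEq ι] in
theorem total_nonneg (src : ι → U) (dst : ι → W) (T d : ℕ) : 0 ≤ total src dst T d :=
  prod_nonneg (fun _ _ => by positivity)

theorem pair_sum (src : ι → U) (dst : ι → W) (gL gR : ι × Fin T → Option Ω)
    (h : ι × Fin T × Fin d) (G : Option Ω → Option Ω → ℝ) :
    ∑ z ∈ slotPairs src dst T d h, G (gL (z.1.1, z.1.2.1)) (gR (z.2.1, z.2.2.1)) =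
      ((num (fun h : ι × Fin T × Fin d => src h.1) (src h.1) : ℝ) *
        (num (fun h : ι × Fin T × Fin d => dst h.1) (dst h.1) : ℝ)) *
      ∑ a, freq (fun c : ι × Fin T => src c.1) gL (src h.1) a *
        ∑ b, freq (fun c : ι × Fin T => dst c.1) gR (dst h.1) b * G a b := by
  unfold slotPairs
  rw [sum_product]
  have h1 : ∀ y ∈ univ.filter (fun y : ι × Fin T × Fin d => src y.1 = src h.1),
      ∑ y' ∈ univ.filter (fun y' : ι × Fin T × Fin d => dst y'.1 = dst h.1),
        G (gL (y.1, y.2.1)) (gR (y'.1, y'.2.1)) =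
      (fun a => (num (fun h : ι × Fin T × Fin d => dst h.1) (dst h.1) : ℝ) *
        ∑ b, freq (fun c : ι × Fin T => dst c.1) gR (dst h.1) b * G a b) (gL (y.1, y.2.1)) := by
    intro y _
    exact slot_sum dst gR (dst h.1) (fun b => G (gL (y.1, y.2.1)) b)
  rw [sum_congr rfl h1, slot_sum src gL (src h.1)
    (fun a => (num (fun h : ι × Fin T × Fin d => dst h.1) (dst h.1) : ℝ) *
        ∑ b, freq (fun c : ι × Fin T => dst c.1) gR (dst h.1) b * G a b), mul_assoc]
  congr 1
  rw [mul_sum]
  refine sum_congr rfl (fun a _ => ?_)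
  ring

omit [DecidableEq ι] in
theorem pair_card (src : ι → U) (dst : ι → W) (h : ι × Fin T × Fin d) :
    ((slotPairs src dst T d h).card : ℝ) =
      ((num (fun h : ι × Fin T × Fin d => src h.1) (src h.1) : ℝ) *
        (num (fun h : ι × Fin T × Fin d => dst h.1) (dst h.1) : ℝ)) := by
  unfold slotPairs num
  rw [card_product]
  push_cast
  rfl

/-- A sum over routings of a nonnegative product is at most the sum over independent positions. -/
theorem routing_sum (src : ι → U) (dst : ι → W)
    (F : (ι × Fin T × Fin d) → (ι × Fin T × Fin d) × (ι × Fin T × Fin d) → ℝ)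
    (hF : ∀ h z, 0 ≤ F h z) :
    ∑ r : Routing src dst T d, ∏ h, F h (r.left h, r.right h) ≤
      ∏ h, ∑ z ∈ slotPairs src dst T d h, F h z := by
  classical
  rw [Finset.prod_univ_sum]
  let e : Routing src dst T d →
      ((ι × Fin T × Fin d) → (ι × Fin T × Fin d) × (ι × Fin T × Fin d)) :=
    fun r h => (r.left h, r.right h)
  have he : Function.Injective e := by
    intro r r' hr
    apply Routing.ext'
    · ext1 h
      exact congrArg Prod.fst (congrFun hr h)
    · ext1 h
      exact congrArg Prod.snd (congrFun hr h)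
  have h1 : ∑ r : Routing src dst T d, ∏ h, F h (r.left h, r.right h) =
      ∑ x ∈ univ.image e, ∏ h, F h (x h) := by
    rw [sum_image (fun a _ b _ hab => he hab)]
  rw [h1]
  refine sum_le_sum_of_subset_of_nonneg ?_ (fun x _ _ => prod_nonneg (fun h _ => hF _ _))
  intro x hx
  obtain ⟨r, _, rfl⟩ := mem_image.1 hx
  rw [Fintype.mem_piFinset]
  intro h
  simp only [slotPairs, mem_product, mem_filter, mem_univ, true_and, e]
  exact ⟨r.src_left h, r.dst_right h⟩

open Classical in
/-- First moment bound: light labels. -/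
theorem moment_light (src : ι → U) (dst : ι → W) (perm : ι → Equiv.Perm Ω)
    (gL gR : ι × Fin T → Option Ω) :
    ∑ r : Routing src dst T d, ∏ h : ι × Fin T × Fin d,
      (1 + if Sat (perm h.1) (gL ((r.left h).1, (r.left h).2.1))
            (gR ((r.right h).1, (r.right h).2.1)) then
          (min (freq (fun c : ι × Fin T => src c.1) gL (src h.1)
              (gL ((r.left h).1, (r.left h).2.1)))
            (freq (fun c : ι × Fin T => dst c.1) gR (dst h.1)
              (gR ((r.right h).1, (r.right h).2.1))))⁻¹ else 0) ≤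
      3 ^ (Fintype.card ι * T * d) * total src dst T d := by
  set G : (ι × Fin T × Fin d) → Option Ω → Option Ω → ℝ := fun h a b =>
    (if Sat (perm h.1) a b then
      (min (freq (fun c : ι × Fin T => src c.1) gL (src h.1) a)
        (freq (fun c : ι × Fin T => dst c.1) gR (dst h.1) b))⁻¹ else 0) with hG
  have hG0 : ∀ h a b, 0 ≤ G h a b := by
    intro h a b
    rw [hG]
    dsimp only
    split_ifs
    · exact inv_nonneg.2 (le_min (freq_nonneg _ _ _ _) (freq_nonneg _ _ _ _))
    · exact le_rfl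
  refine (routing_sum src dst (fun h z => 1 + G h (gL (z.1.1, z.1.2.1)) (gR (z.2.1, z.2.2.1)))
    (fun h z => by linarith [hG0 h (gL (z.1.1, z.1.2.1)) (gR (z.2.1, z.2.2.1))])).trans ?_
  have h3 : (3 : ℝ) ^ (Fintype.card ι * T * d) = ∏ _h : ι × Fin T × Fin d, (3 : ℝ) := by
    rw [prod_const, card_univ]
    simp [mul_assoc]
  rw [h3, total, ← prod_mul_distrib]
  refine prod_le_prod (fun h _ => sum_nonneg (fun z _ => by
    linarith [hG0 h (gL (z.1.1, z.1.2.1)) (gR (z.2.1, z.2.2.1))])) (fun h _ => ?_)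
  rw [sum_add_distrib, sum_const, nsmul_eq_mul, mul_one, pair_card, pair_sum src dst gL gR h (G h)]
  have h4 : ∑ a, freq (fun c : ι × Fin T => src c.1) gL (src h.1) a *
        ∑ b, freq (fun c : ι × Fin T => dst c.1) gR (dst h.1) b * G h a b ≤ 2 := by
    rw [hG]
    dsimp only
    rw [sum_sat (perm h.1) _ _ (fun a b =>
      (min (freq (fun c : ι × Fin T => src c.1) gL (src h.1) a)
        (freq (fun c : ι × Fin T => dst c.1) gR (dst h.1) b))⁻¹)]
    exact sum_min_le (perm h.1) _ _ (fun a => freq_nonneg _ _ _ _) (fun a => freq_nonneg _ _ _ _)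
      (sum_freq_le_one _ _ _) (sum_freq_le_one _ _ _)
  have h5 : (0 : ℝ) ≤ (num (fun h : ι × Fin T × Fin d => src h.1) (src h.1) : ℝ) *
        (num (fun h : ι × Fin T × Fin d => dst h.1) (dst h.1) : ℝ) := by positivity
  nlinarith [mul_le_mul_of_nonneg_left h4 h5]

open Classical in
/-- First moment bound: heavy labels. -/
theorem moment_heavy (src : ι → U) (dst : ι → W) (perm : ι → Equiv.Perm Ω)
    (gL gR : ι × Fin T → Option Ω) (B : ℝ) (hB : 0 ≤ B) :
    ∑ r : Routing src dst T d, ∏ h : ι × Fin T × Fin d,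
      (1 + if Sat (perm h.1) (gL ((r.left h).1, (r.left h).2.1))
            (gR ((r.right h).1, (r.right h).2.1)) then B else 0) ≤
      Real.exp (B * (T * d * ∑ e : ι, ∑ ω, freq (fun c : ι × Fin T => src c.1) gL (src e) (some ω) *
        freq (fun c : ι × Fin T => dst c.1) gR (dst e) (some (perm e ω)))) *
        total src dst T d := by
  set G : (ι × Fin T × Fin d) → Option Ω → Option Ω → ℝ := fun h a b =>
    (if Sat (perm h.1) a b then B else 0) with hG
  have hG0 : ∀ h a b, 0 ≤ G h a b := by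
    intro h a b
    rw [hG]
    dsimp only
    split_ifs
    · exact hB
    · exact le_rfl
  set R : ι → ℝ := fun e => ∑ ω, freq (fun c : ι × Fin T => src c.1) gL (src e) (some ω) *
        freq (fun c : ι × Fin T => dst c.1) gR (dst e) (some (perm e ω)) with hR
  refine (routing_sum src dst (fun h z => 1 + G h (gL (z.1.1, z.1.2.1)) (gR (z.2.1, z.2.2.1)))
    (fun h z => by linarith [hG0 h (gL (z.1.1, z.1.2.1)) (gR (z.2.1, z.2.2.1))])).trans ?_
  have h3 : Real.exp (B * (T * d * ∑ e : ι, R e)) =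
      ∏ h : ι × Fin T × Fin d, Real.exp (B * R h.1) := by
    rw [← Real.exp_sum]
    congr 1
    rw [Fintype.sum_prod_type, mul_sum, mul_sum]
    refine sum_congr rfl (fun e _ => ?_)
    have h3' : ∑ y : Fin T × Fin d, B * R (e, y).1 = ∑ _y : Fin T × Fin d, B * R e := rfl
    rw [h3', sum_const, card_univ, Fintype.card_prod, Fintype.card_fin, Fintype.card_fin,
      nsmul_eq_mul]
    push_cast
    ring
  rw [h3, total, ← prod_mul_distrib]
  refine prod_le_prod (fun h _ => sum_nonneg (fun z _ => by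
    linarith [hG0 h (gL (z.1.1, z.1.2.1)) (gR (z.2.1, z.2.2.1))])) (fun h _ => ?_)
  rw [sum_add_distrib, sum_const, nsmul_eq_mul, mul_one, pair_card, pair_sum src dst gL gR h (G h)]
  have h4 : ∑ a, freq (fun c : ι × Fin T => src c.1) gL (src h.1) a *
        ∑ b, freq (fun c : ι × Fin T => dst c.1) gR (dst h.1) b * G h a b = B * R h.1 := by
    rw [hG]
    dsimp only
    rw [sum_sat (perm h.1) _ _ (fun a b => B), hR]
    dsimp only
    rw [mul_sum]
    exact sum_congr rfl (fun ω _ => mul_comm _ _)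
  rw [h4]
  have h5 : (0 : ℝ) ≤ (num (fun h : ι × Fin T × Fin d => src h.1) (src h.1) : ℝ) *
        (num (fun h : ι × Fin T × Fin d => dst h.1) (dst h.1) : ℝ) := by positivity
  have h6 := Real.add_one_le_exp (B * R h.1)
  nlinarith [mul_le_mul_of_nonneg_left h6 h5]

end moments

end Pool.Agent.P325d
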