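import Mathlib
import Pool.Agent.Lib.P325d.Moment

/-!
# Rounding, and the union bound over all labelings and all constraints
-/

open Finset

namespace Pool.Agent.P325d

open Pool.Agent.P325f1f.Dich

section round

variable {U W Ω ι : Type} [Fintype ι] [Fintype Ω] [Fintype U] [Fintype W]

theorem round_aux {V : Type} [Fintype V] [DecidableEq V] [Nonempty Ω] (f : ι → V) (μ : V → Ω → ℝ)
    (h0 : ∀ v ω, 0 ≤ μ v ω) (h1 : ∀ v, ∑ ω, μ v ω ≤ 1) (F : ι → Ω → ℝ) (hF : ∀ e ω, 0 ≤ F e ω) :
    ∃ x : V → Ω, ∑ e, ∑ ω, μ (f e) ω * F e ω ≤ ∑ e, F e (x (f e)) := by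
  classical
  have h2 : ∀ v : V, ∃ ω0 : Ω, ∀ ω : Ω, ∑ e ∈ univ with f e = v, F e ω ≤
      ∑ e ∈ univ with f e = v, F e ω0 := fun v =>
    Finite.exists_max (fun ω => ∑ e ∈ univ with f e = v, F e ω)
  choose x hx using h2
  refine ⟨x, ?_⟩
  rw [← Finset.sum_fiberwise univ f, ← Finset.sum_fiberwise univ f (fun e => F e (x (f e)))]
  refine sum_le_sum (fun v _ => ?_)
  have h3 : ∑ e ∈ univ with f e = v, ∑ ω, μ (f e) ω * F e ω =
      ∑ ω, μ v ω * ∑ e ∈ univ with f e = v, F e ω := by
    rw [sum_comm]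
    refine sum_congr rfl (fun ω _ => ?_)
    rw [mul_sum]
    refine sum_congr rfl (fun e he => ?_)
    rw [(mem_filter.1 he).2]
  have h4 : ∑ e ∈ univ with f e = v, F e (x (f e)) = ∑ e ∈ univ with f e = v, F e (x v) := by
    refine sum_congr rfl (fun e he => ?_)
    rw [(mem_filter.1 he).2]
  rw [h3, h4]
  have h5 : 0 ≤ ∑ e ∈ univ with f e = v, F e (x v) := sum_nonneg (fun e _ => hF _ _)
  calc ∑ ω, μ v ω * ∑ e ∈ univ with f e = v, F e ω
      ≤ ∑ ω, μ v ω * ∑ e ∈ univ with f e = v, F e (x v) :=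
        sum_le_sum (fun ω _ => mul_le_mul_of_nonneg_left (hx v ω) (h0 v ω))
    _ = (∑ ω, μ v ω) * ∑ e ∈ univ with f e = v, F e (x v) := by rw [sum_mul]
    _ ≤ 1 * ∑ e ∈ univ with f e = v, F e (x v) := mul_le_mul_of_nonneg_right (h1 v) h5
    _ = _ := one_mul _

/-- Independent random labels do not beat the value. -/
theorem round [Nonempty Ω] [Nonempty ι] (I : Game U W Ω ι) (μ : U → Ω → ℝ) (ν : W → Ω → ℝ)
    (hμ0 : ∀ v ω, 0 ≤ μ v ω) (hμ1 : ∀ v, ∑ ω, μ v ω ≤ 1)
    (hν0 : ∀ v ω, 0 ≤ ν v ω) (hν1 : ∀ v, ∑ ω, ν v ω ≤ 1) :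
    ∑ e, ∑ ω, μ (I.src e) ω * ν (I.dst e) (I.perm e ω) ≤ Fintype.card ι * I.value := by
  classical
  obtain ⟨x, hx⟩ := round_aux I.src μ hμ0 hμ1 (fun e ω => ν (I.dst e) (I.perm e ω))
    (fun e ω => hν0 _ _)
  obtain ⟨y, hy⟩ := round_aux I.dst ν hν0 hν1
    (fun e ω => if I.perm e (x (I.src e)) = ω then (1 : ℝ) else 0)
    (fun e ω => by split_ifs <;> norm_num)
  have h1 : ∑ e, ∑ ω, ν (I.dst e) ω * (if I.perm e (x (I.src e)) = ω then (1 : ℝ) else 0) =
      ∑ e, ν (I.dst e) (I.perm e (x (I.src e))) := by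
    refine sum_congr rfl (fun e _ => ?_)
    simp
  rw [h1] at hy
  refine hx.trans (hy.trans ?_)
  have h2 := le_value I x y
  have h3 : (0 : ℝ) < Fintype.card ι := by exact_mod_cast Fintype.card_pos
  have h4 : ∑ e, (if I.perm e (x (I.src e)) = y (I.dst e) then (1 : ℝ) else 0) =
      Fintype.card ι * I.satFrac x y := by
    rw [satFrac_eq, Fintype.expect_eq_sum_div_card, mul_div_cancel₀ _ h3.ne']
  rw [h4]
  exact mul_le_mul_of_nonneg_left h2 h3.le

end round

section union

variable {U W Ω ι : Type} [Fintype ι] [DecidableEq ι] [Fintype Ω] [DecidableEq Ω]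
  [Fintype U] [Fintype W] [DecidableEq U] [DecidableEq W]

/-- The weight of a pair of partial labelings. -/
noncomputable def wt (src : ι → U) (dst : ι → W) (T : ℕ) (gL gR : ι × Fin T → Option Ω) : ℝ :=
  (∏ c, freq (fun c : ι × Fin T => src c.1) gL (src c.1) (gL c)) *
    ∏ c, freq (fun c : ι × Fin T => dst c.1) gR (dst c.1) (gR c)

open Classical in
/-- The test for light labels. -/
noncomputable def testL {src : ι → U} {dst : ι → W} {T d : ℕ} (perm : ι → Equiv.Perm Ω)
    (gL gR : ι × Fin T → Option Ω) (r : Routing src dst T d) : ℝ :=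
  ∏ h : ι × Fin T × Fin d,
      (1 + if Sat (perm h.1) (gL ((r.left h).1, (r.left h).2.1))
            (gR ((r.right h).1, (r.right h).2.1)) then
          (min (freq (fun c : ι × Fin T => src c.1) gL (src h.1)
              (gL ((r.left h).1, (r.left h).2.1)))
            (freq (fun c : ι × Fin T => dst c.1) gR (dst h.1)
              (gR ((r.right h).1, (r.right h).2.1))))⁻¹ else 0)

open Classical in
/-- The test for heavy labels. -/
noncomputable def testH {src : ι → U} {dst : ι → W} {T d : ℕ} (perm : ι → Equiv.Perm Ω)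
    (gL gR : ι × Fin T → Option Ω) (B : ℝ) (r : Routing src dst T d) : ℝ :=
  ∏ h : ι × Fin T × Fin d,
      (1 + if Sat (perm h.1) (gL ((r.left h).1, (r.left h).2.1))
            (gR ((r.right h).1, (r.right h).2.1)) then B else 0)

theorem testL_nonneg {src : ι → U} {dst : ι → W} {T d : ℕ} (perm : ι → Equiv.Perm Ω)
    (gL gR : ι × Fin T → Option Ω) (r : Routing src dst T d) : 0 ≤ testL perm gL gR r := by
  unfold testL
  refine prod_nonneg (fun h _ => ?_)
  split_ifs
  · have : 0 ≤ (min (freq (fun c : ι × Fin T => src c.1) gL (src h.1)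
              (gL ((r.left h).1, (r.left h).2.1)))
            (freq (fun c : ι × Fin T => dst c.1) gR (dst h.1)
              (gR ((r.right h).1, (r.right h).2.1))))⁻¹ :=
      inv_nonneg.2 (le_min (freq_nonneg _ _ _ _) (freq_nonneg _ _ _ _))
    linarith
  · norm_num

theorem testH_nonneg {src : ι → U} {dst : ι → W} {T d : ℕ} (perm : ι → Equiv.Perm Ω)
    (gL gR : ι × Fin T → Option Ω) (B : ℝ) (hB : 0 ≤ B) (r : Routing src dst T d) :
    0 ≤ testH perm gL gR B r := by
  unfold testH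
  refine prod_nonneg (fun h _ => ?_)
  split_ifs
  · linarith
  · norm_num

theorem wt_nonneg (src : ι → U) (dst : ι → W) (T : ℕ) (gL gR : ι × Fin T → Option Ω) :
    0 ≤ wt src dst T gL gR := by
  unfold wt
  exact mul_nonneg (prod_nonneg (fun _ _ => freq_nonneg _ _ _ _))
    (prod_nonneg (fun _ _ => freq_nonneg _ _ _ _))

/-- The number of copies over a vertex. -/
theorem num_copies {V : Type} [DecidableEq V] (f : ι → V) (T : ℕ) (v : V) :
    num (fun c : ι × Fin T => f c.1) v = (univ.filter (fun e => f e = v)).card * T := by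
  unfold num
  have : (univ.filter (fun c : ι × Fin T => f c.1 = v)) =
      (univ.filter (fun e => f e = v)) ×ˢ (univ : Finset (Fin T)) := by
    ext c
    simp
  rw [this, card_product, card_univ, Fintype.card_fin]

theorem profile_bound {V : Type} [Fintype V] [DecidableEq V] (f : ι → V) (T q : ℕ)
    (hq : Fintype.card Ω ≤ q)
    (hT : ∀ y : ℕ, T ≤ y → ((y : ℝ) + 1) ^ (q + 1) ≤ Real.exp y) :
    ∑ g : ι × Fin T → Option Ω, ∏ c, freq (fun c : ι × Fin T => f c.1) g (f c.1) (g c) ≤
      Real.exp (Fintype.card ι * T) := by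
  refine (profile_sum (A := Option Ω) (fun c : ι × Fin T => f c.1)).trans ?_
  have h1 : (Fintype.card ι * T : ℝ) = ∑ v : V, (num (fun c : ι × Fin T => f c.1) v : ℝ) := by
    have h2 : ∑ v : V, num (fun c : ι × Fin T => f c.1) v = Fintype.card (ι × Fin T) := by
      unfold num
      rw [← Finset.card_eq_sum_card_fiberwise (f := fun c : ι × Fin T => f c.1) (s := univ)
        (t := univ) (fun _ _ => by simp), card_univ]
    rw [← Nat.cast_sum, h2]
    simp
  rw [h1, Real.exp_sum]
  refine prod_le_prod (fun v _ => by positivity) (fun v _ => ?_)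
  have h3 : Fintype.card (Option Ω) ≤ q + 1 := by rw [Fintype.card_option]; omega
  have h4 : ((num (fun c : ι × Fin T => f c.1) v : ℝ) + 1) ^ Fintype.card (Option Ω) ≤
      ((num (fun c : ι × Fin T => f c.1) v : ℝ) + 1) ^ (q + 1) :=
    pow_le_pow_right₀ (by linarith [(Nat.cast_nonneg
      (num (fun c : ι × Fin T => f c.1) v) : (0 : ℝ) ≤ _)]) h3
  refine h4.trans ?_
  rcases Nat.eq_zero_or_pos (univ.filter (fun e => f e = v)).card with h0 | hpos
  · have : num (fun c : ι × Fin T => f c.1) v = 0 := by rw [num_copies, h0, zero_mul]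
    rw [this]
    simp
  · apply hT
    rw [num_copies]
    exact Nat.le_mul_of_pos_left _ hpos

end union

end Pool.Agent.P325d
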