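import Mathlib
import Pool.Agent.Lib.P325d.Round

/-!
# The union bound over all labelings and all constraints
-/

open Finset

namespace Pool.Agent.P325d

open Pool.Agent.P325f1f.Dich

variable {U W Ω ι : Type} [Fintype ι] [DecidableEq ι] [Fintype Ω] [DecidableEq Ω]
  [Fintype U] [Fintype W] [DecidableEq U] [DecidableEq W]

/-- A routing is bad if some constraints and some partial labelings beat one of the two tests. -/
def IsBad (Ω : Type) [Fintype Ω] [DecidableEq Ω] {src : ι → U} {dst : ι → W} {T d : ℕ} (δ K : ℝ)
    (r : Routing src dst T d) : Prop :=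
  ∃ (perm : ι → Equiv.Perm Ω) (gL gR : ι × Fin T → Option Ω),
    Real.exp K ≤ wt src dst T gL gR * testL perm gL gR r ∨
    ((Game.mk src dst perm).value ≤ δ ∧
      Real.exp K ≤ wt src dst T gL gR * testH perm gL gR (1 / δ) r)

theorem heavy_sum [Nonempty Ω] [Nonempty ι] (src : ι → U) (dst : ι → W) (T d : ℕ)
    (perm : ι → Equiv.Perm Ω) (gL gR : ι × Fin T → Option Ω) (δ : ℝ) (hδ : 0 < δ)
    (hv : (Game.mk src dst perm).value ≤ δ) :
    ∑ r : Routing src dst T d, testH perm gL gR (1 / δ) r ≤
      Real.exp (Fintype.card ι * T * d) * total src dst T d := by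
  refine (moment_heavy src dst perm gL gR (1 / δ) (by positivity)).trans ?_
  refine mul_le_mul_of_nonneg_right ?_ (total_nonneg _ _ _ _)
  apply Real.exp_le_exp.2
  have h1 := round (Game.mk src dst perm)
    (fun u ω => freq (fun c : ι × Fin T => src c.1) gL u (some ω))
    (fun w ω => freq (fun c : ι × Fin T => dst c.1) gR w (some ω))
    (fun _ _ => freq_nonneg _ _ _ _)
    (fun u => by
      have := sum_freq_le_one (fun c : ι × Fin T => src c.1) gL u
      rw [Fintype.sum_option] at this
      linarith [freq_nonneg (fun c : ι × Fin T => src c.1) gL u none])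
    (fun _ _ => freq_nonneg _ _ _ _)
    (fun w => by
      have := sum_freq_le_one (fun c : ι × Fin T => dst c.1) gR w
      rw [Fintype.sum_option] at this
      linarith [freq_nonneg (fun c : ι × Fin T => dst c.1) gR w none])
  dsimp only at h1
  have h2 : (Fintype.card ι : ℝ) * (Game.mk src dst perm).value ≤ Fintype.card ι * δ :=
    mul_le_mul_of_nonneg_left hv (Nat.cast_nonneg _)
  have h3 := h1.trans h2
  calc 1 / δ * (T * d * ∑ e : ι, ∑ ω, freq (fun c : ι × Fin T => src c.1) gL (src e) (some ω) *
        freq (fun c : ι × Fin T => dst c.1) gR (dst e) (some (perm e ω)))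
      ≤ 1 / δ * (T * d * (Fintype.card ι * δ)) := by
        apply mul_le_mul_of_nonneg_left _ (by positivity)
        exact mul_le_mul_of_nonneg_left h3 (by positivity)
    _ = Fintype.card ι * T * d := by field_simp

open Classical in
theorem card_bad [Nonempty Ω] [Nonempty ι] (src : ι → U) (dst : ι → W) (T d q : ℕ) (hT1 : 1 ≤ T)
    (hq : Fintype.card Ω ≤ q)
    (hT : ∀ y : ℕ, T ≤ y → ((y : ℝ) + 1) ^ (q + 1) ≤ Real.exp y)
    (hT2 : (q.factorial : ℝ) ≤ Real.exp T) (δ : ℝ) (hδ : 0 < δ) :
    ((univ.filter (fun r : Routing src dst T d =>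
      IsBad Ω δ ((4 * d + 5) * (Fintype.card ι * T)) r)).card : ℝ) ≤
      Real.exp (-(Fintype.card ι : ℝ)) * Fintype.card (Routing src dst T d) := by
  set K : ℝ := (4 * d + 5) * (Fintype.card ι * T) with hK
  set X : ℝ := Fintype.card ι * T with hX
  have hX1 : 1 ≤ X := by
    have h1 : (1 : ℝ) ≤ Fintype.card ι := by exact_mod_cast Fintype.card_pos
    have h2 : (1 : ℝ) ≤ T := by exact_mod_cast hT1
    rw [hX]
    nlinarith
  have hXι : (Fintype.card ι : ℝ) ≤ X := by
    have h2 : (1 : ℝ) ≤ T := by exact_mod_cast hT1
    rw [hX]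
    nlinarith [(Nat.cast_nonneg (Fintype.card ι) : (0 : ℝ) ≤ Fintype.card ι)]
  -- the majorant of the indicator of the bad routings
  set maj : (ι → Equiv.Perm Ω) → (ι × Fin T → Option Ω) → (ι × Fin T → Option Ω) →
      Routing src dst T d → ℝ := fun perm gL gR r =>
    wt src dst T gL gR * (testL perm gL gR r +
      (if (Game.mk src dst perm).value ≤ δ then testH perm gL gR (1 / δ) r else 0)) with hmaj
  have hmaj0 : ∀ perm gL gR r, 0 ≤ maj perm gL gR r := by
    intro perm gL gR r
    rw [hmaj]
    refine mul_nonneg (wt_nonneg _ _ _ _ _) (add_nonneg (testL_nonneg _ _ _ _) ?_)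
    split_ifs
    · exact testH_nonneg _ _ _ _ (by positivity) _
    · exact le_rfl
  have h1 : ∀ r : Routing src dst T d, (if IsBad Ω δ K r then (1 : ℝ) else 0) ≤
      (Real.exp K)⁻¹ * ∑ perm, ∑ gL, ∑ gR, maj perm gL gR r := by
    intro r
    have hsum0 : 0 ≤ ∑ perm, ∑ gL, ∑ gR, maj perm gL gR r :=
      sum_nonneg (fun _ _ => sum_nonneg (fun _ _ => sum_nonneg (fun _ _ => hmaj0 _ _ _ _)))
    split_ifs with hb
    · obtain ⟨perm, gL, gR, h⟩ := hb
      have h2 : Real.exp K ≤ maj perm gL gR r := by
        rw [hmaj]
        dsimp only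
        rw [mul_add]
        rcases h with h | ⟨hv, h⟩
        · have : 0 ≤ wt src dst T gL gR * (if (Game.mk src dst perm).value ≤ δ then
              testH perm gL gR (1 / δ) r else 0) := by
            refine mul_nonneg (wt_nonneg _ _ _ _ _) ?_
            split_ifs
            · exact testH_nonneg _ _ _ _ (by positivity) _
            · exact le_rfl
          linarith
        · rw [if_pos hv]
          have : 0 ≤ wt src dst T gL gR * testL perm gL gR r :=
            mul_nonneg (wt_nonneg _ _ _ _ _) (testL_nonneg _ _ _ _)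
          linarith
      have h3 : maj perm gL gR r ≤ ∑ perm, ∑ gL, ∑ gR, maj perm gL gR r := by
        calc maj perm gL gR r ≤ ∑ gR, maj perm gL gR r :=
              Finset.single_le_sum (f := fun gR => maj perm gL gR r)
                (fun _ _ => hmaj0 _ _ _ _) (mem_univ gR)
          _ ≤ ∑ gL, ∑ gR, maj perm gL gR r :=
              Finset.single_le_sum (f := fun gL => ∑ gR, maj perm gL gR r)
                (fun _ _ => sum_nonneg (fun _ _ => hmaj0 _ _ _ _)) (mem_univ gL)
          _ ≤ ∑ perm, ∑ gL, ∑ gR, maj perm gL gR r :=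
              Finset.single_le_sum (f := fun perm => ∑ gL, ∑ gR, maj perm gL gR r)
                (fun _ _ => sum_nonneg (fun _ _ => sum_nonneg (fun _ _ => hmaj0 _ _ _ _)))
                (mem_univ perm)
      rw [inv_mul_eq_div, le_div_iff₀ (Real.exp_pos _), one_mul]
      exact h2.trans h3
    · exact mul_nonneg (inv_nonneg.2 (Real.exp_pos _).le) hsum0
  have h4 : ((univ.filter (fun r : Routing src dst T d => IsBad Ω δ K r)).card : ℝ) =
      ∑ r : Routing src dst T d, (if IsBad Ω δ K r then (1 : ℝ) else 0) := by
    rw [Finset.sum_boole]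
  have htot := total_nonneg src dst T d
  -- sum over routings for fixed constraints and labelings
  have h5 : ∀ perm gL gR, ∑ r : Routing src dst T d, maj perm gL gR r ≤
      wt src dst T gL gR * (2 * Real.exp (2 * (X * d)) * total src dst T d) := by
    intro perm gL gR
    rw [hmaj]
    dsimp only
    rw [← mul_sum, sum_add_distrib]
    refine mul_le_mul_of_nonneg_left ?_ (wt_nonneg _ _ _ _ _)
    have h6 : ∑ r : Routing src dst T d, testL perm gL gR r ≤
        Real.exp (2 * (X * d)) * total src dst T d := by
      refine (moment_light src dst perm gL gR).trans ?_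
      refine mul_le_mul_of_nonneg_right ?_ htot
      have h7 : (3 : ℝ) ≤ Real.exp 2 := by
        have := Real.add_one_le_exp (2 : ℝ)
        linarith
      calc (3 : ℝ) ^ (Fintype.card ι * T * d) ≤ (Real.exp 2) ^ (Fintype.card ι * T * d) :=
            pow_le_pow_left₀ (by norm_num) h7 _
        _ = Real.exp (2 * (X * d)) := by
            rw [← Real.exp_nat_mul]
            congr 1
            rw [hX]
            push_cast
            ring
    have h8 : ∑ r : Routing src dst T d, (if (Game.mk src dst perm).value ≤ δ then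
        testH perm gL gR (1 / δ) r else 0) ≤ Real.exp (2 * (X * d)) * total src dst T d := by
      by_cases hv : (Game.mk src dst perm).value ≤ δ
      · simp only [if_pos hv]
        refine (heavy_sum src dst T d perm gL gR δ hδ hv).trans ?_
        refine mul_le_mul_of_nonneg_right ?_ htot
        apply Real.exp_le_exp.2
        have : 0 ≤ X * d := by positivity
        linarith
      · simp only [if_neg hv, sum_const_zero]
        positivity
    linarith
  have h9 : ∑ gL : ι × Fin T → Option Ω, ∑ gR, wt src dst T gL gR ≤ Real.exp (2 * X) := by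
    have h10 : ∑ gL : ι × Fin T → Option Ω, ∑ gR, wt src dst T gL gR =
        (∑ gL : ι × Fin T → Option Ω,
          ∏ c, freq (fun c : ι × Fin T => src c.1) gL (src c.1) (gL c)) *
        ∑ gR : ι × Fin T → Option Ω,
          ∏ c, freq (fun c : ι × Fin T => dst c.1) gR (dst c.1) (gR c) := by
      rw [sum_mul_sum]
      rfl
    rw [h10]
    have h11 := profile_bound (Ω := Ω) src T q hq hT
    have h12 := profile_bound (Ω := Ω) dst T q hq hT
    calc _ ≤ Real.exp (Fintype.card ι * T) * Real.exp (Fintype.card ι * T) :=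
          mul_le_mul h11 h12 (sum_nonneg (fun _ _ => prod_nonneg (fun _ _ => freq_nonneg _ _ _ _)))
            (Real.exp_pos _).le
      _ = Real.exp (2 * X) := by
          rw [← Real.exp_add]; congr 1; rw [hX]; ring
  have h13 : (Fintype.card (ι → Equiv.Perm Ω) : ℝ) ≤ Real.exp X := by
    rw [Fintype.card_fun, Fintype.card_perm]
    push_cast
    calc ((Fintype.card Ω).factorial : ℝ) ^ Fintype.card ι
        ≤ (Real.exp T) ^ Fintype.card ι := by
          refine pow_le_pow_left₀ (Nat.cast_nonneg _) (le_trans ?_ hT2) _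
          exact_mod_cast Nat.factorial_le hq
      _ = Real.exp X := by rw [← Real.exp_nat_mul]
  have hroute : total src dst T d ≤ Real.exp (2 * (X * d)) *
      (Fintype.card (Routing src dst T d) : ℝ) := by
    have := card_routing src dst T d
    unfold total
    refine this.trans_eq ?_
    congr 2
  calc ((univ.filter (fun r : Routing src dst T d => IsBad Ω δ K r)).card : ℝ)
      = ∑ r : Routing src dst T d, (if IsBad Ω δ K r then (1 : ℝ) else 0) := h4
    _ ≤ ∑ r : Routing src dst T d, (Real.exp K)⁻¹ * ∑ perm, ∑ gL, ∑ gR, maj perm gL gR r :=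
        sum_le_sum (fun r _ => h1 r)
    _ = (Real.exp K)⁻¹ * ∑ perm, ∑ gL, ∑ gR, ∑ r : Routing src dst T d, maj perm gL gR r := by
        rw [← mul_sum]
        congr 1
        rw [sum_comm]
        refine sum_congr rfl (fun perm _ => ?_)
        rw [sum_comm]
        refine sum_congr rfl (fun gL _ => ?_)
        rw [sum_comm]
    _ ≤ (Real.exp K)⁻¹ * ∑ _perm : ι → Equiv.Perm Ω,
        Real.exp (2 * X) * (2 * Real.exp (2 * (X * d)) * total src dst T d) := by
        refine mul_le_mul_of_nonneg_left ?_ (inv_nonneg.2 (Real.exp_pos _).le)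
        refine sum_le_sum (fun perm _ => ?_)
        calc ∑ gL, ∑ gR, ∑ r : Routing src dst T d, maj perm gL gR r
            ≤ ∑ gL, ∑ gR, wt src dst T gL gR *
              (2 * Real.exp (2 * (X * d)) * total src dst T d) :=
              sum_le_sum (fun gL _ => sum_le_sum (fun gR _ => h5 perm gL gR))
          _ = (∑ gL, ∑ gR, wt src dst T gL gR) *
              (2 * Real.exp (2 * (X * d)) * total src dst T d) := by
              rw [sum_mul]
              exact sum_congr rfl (fun gL _ => by rw [sum_mul])
          _ ≤ _ := mul_le_mul_of_nonneg_right h9 (by positivity)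
    _ = (Real.exp K)⁻¹ * ((Fintype.card (ι → Equiv.Perm Ω) : ℝ) *
        (Real.exp (2 * X) * (2 * Real.exp (2 * (X * d)) * total src dst T d))) := by
        rw [sum_const, card_univ, nsmul_eq_mul]
    _ ≤ (Real.exp K)⁻¹ * (Real.exp X *
        (Real.exp (2 * X) * (Real.exp 1 * Real.exp (2 * (X * d)) * (Real.exp (2 * (X * d)) *
      (Fintype.card (Routing src dst T d) : ℝ))))) := by
        refine mul_le_mul_of_nonneg_left ?_ (inv_nonneg.2 (Real.exp_pos _).le)
        have h2e : (2 : ℝ) ≤ Real.exp 1 := by
          have := Real.add_one_le_exp (1 : ℝ)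
          linarith
        gcongr
    _ = Real.exp (1 + 3 * X + 4 * (X * d) - K) * (Fintype.card (Routing src dst T d) : ℝ) := by
        rw [← Real.exp_neg]
        have : Real.exp (1 + 3 * X + 4 * (X * d) - K) = Real.exp (-K) * (Real.exp X *
          (Real.exp (2 * X) * (Real.exp 1 * Real.exp (2 * (X * d)) * Real.exp (2 * (X * d))))) := by
          simp only [← Real.exp_add]
          congr 1
          ring
        rw [this]
        ring
    _ ≤ Real.exp (-(Fintype.card ι : ℝ)) * Fintype.card (Routing src dst T d) := by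
        refine mul_le_mul_of_nonneg_right ?_ (Nat.cast_nonneg _)
        apply Real.exp_le_exp.2
        have hd : (0 : ℝ) ≤ d := Nat.cast_nonneg _
        rw [hK]
        nlinarith

end Pool.Agent.P325d
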