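import Mathlib
import Pool.Agent.Lib.P325d.Union
import Pool.Agent.Lib.P325d.Layer

/-!
# Soundness of the sparse copies
-/

open Finset

namespace Pool.Agent.P325d

open Pool.Agent.P325f1f.Dich

section cut

variable {V C Ω : Type} [Fintype C] [DecidableEq V] [DecidableEq Ω]

/-- The weight `log (1 / p)` of a copy whose label has frequency `p` in its cloud. -/
noncomputable def cw (base : C → V) (x : C → Ω) (c : C) : ℝ :=
  -Real.log (freq base x (base c) (x c))

theorem cw_nonneg (base : C → V) (x : C → Ω) (c : C) : 0 ≤ cw base x c := by
  unfold cw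
  have := Real.log_nonpos (freq_nonneg base x (base c) (x c)) (freq_le_one base x (base c) (x c))
  linarith

theorem exp_neg_cw (base : C → V) (x : C → Ω) (c : C) :
    Real.exp (-cw base x c) = freq base x (base c) (x c) := by
  unfold cw
  rw [neg_neg, Real.exp_log (freq_pos base x c)]

open Classical in
/-- Erase all labels of weight larger than `R`. -/
noncomputable def cut (base : C → V) (x : C → Ω) (R : ℝ) (c : C) : Option Ω :=
  if cw base x c ≤ R then some (x c) else none

theorem cut_pos (base : C → V) (x : C → Ω) (R : ℝ) (c : C) (h : cw base x c ≤ R) :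
    cut base x R c = some (x c) := if_pos h

theorem cut_neg (base : C → V) (x : C → Ω) (R : ℝ) (c : C) (h : ¬ cw base x c ≤ R) :
    cut base x R c = none := if_neg h

theorem cut_freq (base : C → V) (x : C → Ω) (R : ℝ) (c : C) (h : cw base x c ≤ R) :
    freq base (cut base x R) (base c) (some (x c)) = freq base x (base c) (x c) := by
  unfold freq
  congr 2
  unfold cnt
  congr 1
  ext c'
  simp only [mem_filter, mem_univ, true_and]
  constructor
  · rintro ⟨h1, h2⟩
    refine ⟨h1, ?_⟩
    by_cases h3 : cw base x c' ≤ R
    · rw [cut_pos base x R c' h3] at h2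
      exact Option.some_injective _ h2
    · rw [cut_neg base x R c' h3] at h2
      cases h2
  · rintro ⟨h1, h2⟩
    refine ⟨h1, ?_⟩
    have h3 : cw base x c' = cw base x c := by
      unfold cw
      rw [h1, h2]
    rw [cut_pos base x R c' (h3 ▸ h), h2]

variable [Fintype V] [DecidableEq C]

theorem cut_wt (base : C → V) (x : C → Ω) (R : ℝ) :
    Real.exp (-(∑ c ∈ univ with cw base x c ≤ R, cw base x c) - Fintype.card C) ≤
      ∏ c, freq base (cut base x R) (base c) (cut base x R c) := by
  classical
  rw [sub_eq_add_neg, Real.exp_add,
    ← Finset.prod_filter_mul_prod_filter_not univ (fun c => cw base x c ≤ R)]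
  refine mul_le_mul ?_ ?_ (Real.exp_pos _).le (prod_nonneg (fun _ _ => freq_nonneg _ _ _ _))
  · rw [← sum_neg_distrib, Real.exp_sum]
    refine le_of_eq (prod_congr rfl (fun c hc => ?_))
    have h := (mem_filter.1 hc).2
    rw [exp_neg_cw, cut_pos base x R c h, cut_freq base x R c h]
  · have h1 := none_prod base (cut base x R) none
    refine h1.trans (le_of_eq ?_)
    refine prod_congr ?_ (fun _ _ => rfl)
    ext c
    simp only [mem_filter, mem_univ, true_and]
    by_cases h : cw base x c ≤ R
    · rw [cut_pos base x R c h]
      simp [h]
    · rw [cut_neg base x R c h]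
      simp [h]

end cut

section main

variable {U W Ω ι : Type} [Fintype ι] [DecidableEq ι] [Fintype Ω] [DecidableEq Ω]
  [Fintype U] [Fintype W] [DecidableEq U] [DecidableEq W]

theorem wt_cut (src : ι → U) (dst : ι → W) (T : ℕ) (x y : ι × Fin T → Ω) (R : ℝ) :
    Real.exp (-(∑ c ∈ univ with cw (fun c : ι × Fin T => src c.1) x c ≤ R,
        cw (fun c : ι × Fin T => src c.1) x c)
      - (∑ c ∈ univ with cw (fun c : ι × Fin T => dst c.1) y c ≤ R,
        cw (fun c : ι × Fin T => dst c.1) y c) - 2 * (Fintype.card ι * T)) ≤
      wt src dst T (cut (fun c : ι × Fin T => src c.1) x R)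
        (cut (fun c : ι × Fin T => dst c.1) y R) := by
  have h1 := cut_wt (fun c : ι × Fin T => src c.1) x R
  have h2 := cut_wt (fun c : ι × Fin T => dst c.1) y R
  have h3 : (Fintype.card (ι × Fin T) : ℝ) = Fintype.card ι * T := by simp
  rw [h3] at h1 h2
  unfold wt
  refine le_trans (le_of_eq ?_) (mul_le_mul h1 h2 (Real.exp_pos _).le
    (prod_nonneg (fun _ _ => freq_nonneg _ _ _ _)))
  rw [← Real.exp_add]
  congr 1
  ring

open Classical in
/-- The number of satisfied edges in a good sparse copy. -/
theorem sat_card {src : ι → U} {dst : ι → W} {T d : ℕ} (δ K W0 : ℝ) (hδ : 0 < δ) (hK : 0 ≤ K)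
    (hW0 : 0 < W0) (r : Routing src dst T d) (hr : ¬ IsBad Ω δ K r)
    (perm : ι → Equiv.Perm Ω) (hv : (Game.mk src dst perm).value ≤ δ) (x y : ι × Fin T → Ω) :
    ((univ.filter (fun h : ι × Fin T × Fin d => perm h.1 (x ((r.left h).1, (r.left h).2.1)) =
      y ((r.right h).1, (r.right h).2.1))).card : ℝ) ≤
      2 * (Fintype.card ι * T) + (K + 2 * (Fintype.card ι * T)) / W0 +
      (K + 2 * (Fintype.card ι * T) * (W0 + 1)) / Real.log (1 + 1 / δ) := by
  set X : ℝ := Fintype.card ι * T with hX
  have hX0 : 0 ≤ X := by positivity
  set wL : ι × Fin T → ℝ := cw (fun c : ι × Fin T => src c.1) x with hwL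
  set wR : ι × Fin T → ℝ := cw (fun c : ι × Fin T => dst c.1) y with hwR
  have hwL0 : ∀ c, 0 ≤ wL c := fun c => cw_nonneg _ _ _
  have hwR0 : ∀ c, 0 ≤ wR c := fun c => cw_nonneg _ _ _
  let cl : ι × Fin T × Fin d → ι × Fin T := fun h => ((r.left h).1, (r.left h).2.1)
  let cr : ι × Fin T × Fin d → ι × Fin T := fun h => ((r.right h).1, (r.right h).2.1)
  let M : ι × Fin T × Fin d → ℝ := fun h => max (wL (cl h)) (wR (cr h))
  set S : Finset (ι × Fin T × Fin d) := univ.filter (fun h => perm h.1 (x (cl h)) = y (cr h))
    with hS
  have hbad : ∀ gL gR, wt src dst T gL gR * testL perm gL gR r < Real.exp K := by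
    intro gL gR
    by_contra hcon
    exact hr ⟨perm, gL, gR, Or.inl (not_lt.1 hcon)⟩
  have hbad2 : ∀ gL gR, wt src dst T gL gR * testH perm gL gR (1 / δ) r < Real.exp K := by
    intro gL gR
    by_contra hcon
    exact hr ⟨perm, gL, gR, Or.inr ⟨hv, not_lt.1 hcon⟩⟩
  have hsl : ∀ h : ι × Fin T × Fin d, src h.1 = src (cl h).1 := fun h => (r.src_left h).symm
  have hsr : ∀ h : ι × Fin T × Fin d, dst h.1 = dst (cr h).1 := fun h => (r.dst_right h).symm
  -- light edges
  set J : Finset (ι × Fin T × Fin d) := S.filter (fun h => W0 ≤ M h) with hJ
  have hlight : (J.card : ℝ) ≤ 2 * X + (K + 2 * X) / W0 := by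
    have h1 := layer J (univ : Finset ((ι × Fin T) ⊕ (ι × Fin T))) M (Sum.elim wL wR) W0
      (K + 2 * X) hW0 (fun j hj => (mem_filter.1 hj).2) (by positivity) ?_
    · have h2 : ((univ : Finset ((ι × Fin T) ⊕ (ι × Fin T))).card : ℝ) = 2 * X := by
        rw [card_univ, Fintype.card_sum, Fintype.card_prod, Fintype.card_fin, hX]
        push_cast
        ring
      rwa [h2] at h1
    · intro R hR
      have h3 : ∑ c ∈ univ with Sum.elim wL wR c ≤ R, Sum.elim wL wR c =
          (∑ c ∈ univ with wL c ≤ R, wL c) + ∑ c ∈ univ with wR c ≤ R, wR c := by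
        rw [sum_filter, sum_filter, sum_filter, Fintype.sum_sum_type]
        simp only [Sum.elim_inl, Sum.elim_inr]
        try congr!
      rw [h3]
      have h4 := hbad (cut (fun c : ι × Fin T => src c.1) x R)
        (cut (fun c : ι × Fin T => dst c.1) y R)
      have h5 := wt_cut src dst T x y R
      have h6 : Real.exp (∑ j ∈ J with M j ≤ R, M j) ≤
          testL perm (cut (fun c : ι × Fin T => src c.1) x R)
            (cut (fun c : ι × Fin T => dst c.1) y R) r := by
        rw [Real.exp_sum]
        unfold testL
        rw [prod_filter]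
        calc ∏ j ∈ J, (if M j ≤ R then Real.exp (M j) else 1)
            = ∏ j : ι × Fin T × Fin d, (if j ∈ J then (if M j ≤ R then Real.exp (M j) else 1)
                else 1) := by
              rw [Finset.prod_ite_mem, univ_inter]
          _ ≤ _ := by
              refine prod_le_prod (fun j _ => by split_ifs <;> positivity) (fun h _ => ?_)
              have hge : (1 : ℝ) ≤ 1 + (if Sat (perm h.1)
                  (cut (fun c : ι × Fin T => src c.1) x R ((r.left h).1, (r.left h).2.1))
                  (cut (fun c : ι × Fin T => dst c.1) y R ((r.right h).1, (r.right h).2.1)) then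
                (min (freq (fun c : ι × Fin T => src c.1)
                    (cut (fun c : ι × Fin T => src c.1) x R) (src h.1)
                    (cut (fun c : ι × Fin T => src c.1) x R ((r.left h).1, (r.left h).2.1)))
                  (freq (fun c : ι × Fin T => dst c.1)
                    (cut (fun c : ι × Fin T => dst c.1) y R) (dst h.1)
                    (cut (fun c : ι × Fin T => dst c.1) y R
                      ((r.right h).1, (r.right h).2.1))))⁻¹ else 0) := by
                split_ifs
                · have : 0 ≤ (min (freq (fun c : ι × Fin T => src c.1)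
                    (cut (fun c : ι × Fin T => src c.1) x R) (src h.1)
                    (cut (fun c : ι × Fin T => src c.1) x R ((r.left h).1, (r.left h).2.1)))
                  (freq (fun c : ι × Fin T => dst c.1)
                    (cut (fun c : ι × Fin T => dst c.1) y R) (dst h.1)
                    (cut (fun c : ι × Fin T => dst c.1) y R
                      ((r.right h).1, (r.right h).2.1))))⁻¹ :=
                    inv_nonneg.2 (le_min (freq_nonneg _ _ _ _) (freq_nonneg _ _ _ _))
                  linarith
                · norm_num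
              by_cases hj : h ∈ J
              · by_cases hMR : M h ≤ R
                · rw [if_pos hj, if_pos hMR]
                  have hs : perm h.1 (x (cl h)) = y (cr h) :=
                    (mem_filter.1 (mem_filter.1 hj).1).2
                  have hcl : wL (cl h) ≤ R := (le_max_left _ _).trans hMR
                  have hcr : wR (cr h) ≤ R := (le_max_right _ _).trans hMR
                  have e1 : cut (fun c : ι × Fin T => src c.1) x R
                      ((r.left h).1, (r.left h).2.1) = some (x (cl h)) :=
                    cut_pos _ _ _ _ hcl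
                  have e2 : cut (fun c : ι × Fin T => dst c.1) y R
                      ((r.right h).1, (r.right h).2.1) = some (y (cr h)) :=
                    cut_pos _ _ _ _ hcr
                  rw [if_pos ⟨x (cl h), e1, by rw [e2, hs]⟩, e1, e2, hsl h, hsr h]
                  have e3 := cut_freq (fun c : ι × Fin T => src c.1) x R (cl h) hcl
                  have e4 := cut_freq (fun c : ι × Fin T => dst c.1) y R (cr h) hcr
                  rw [e3, e4]
                  have e5 : min (freq (fun c : ι × Fin T => src c.1) x (src (cl h).1) (x (cl h)))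
                      (freq (fun c : ι × Fin T => dst c.1) y (dst (cr h).1) (y (cr h))) =
                      Real.exp (-M h) := by
                    have e6 := exp_neg_cw (fun c : ι × Fin T => src c.1) x (cl h)
                    have e7 := exp_neg_cw (fun c : ι × Fin T => dst c.1) y (cr h)
                    rw [← hwL] at e6
                    rw [← hwR] at e7
                    rw [← e6, ← e7]
                    rcases le_total (wL (cl h)) (wR (cr h)) with hle | hle
                    · rw [min_eq_right (Real.exp_le_exp.2 (neg_le_neg hle))]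
                      have : M h = wR (cr h) := max_eq_right hle
                      rw [this]
                    · rw [min_eq_left (Real.exp_le_exp.2 (neg_le_neg hle))]
                      have : M h = wL (cl h) := max_eq_left hle
                      rw [this]
                  rw [e5, ← Real.exp_neg, neg_neg]
                  linarith
                · rw [if_pos hj, if_neg hMR]
                  exact hge
              · rw [if_neg hj]
                exact hge
      have h7 : Real.exp (-(∑ c ∈ univ with wL c ≤ R, wL c) - (∑ c ∈ univ with wR c ≤ R, wR c)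
          - 2 * X + ∑ j ∈ J with M j ≤ R, M j) < Real.exp K := by
        rw [Real.exp_add]
        refine lt_of_le_of_lt ?_ h4
        exact mul_le_mul h5 h6 (Real.exp_pos _).le (wt_nonneg _ _ _ _ _)
      have h8 := Real.exp_lt_exp.1 h7
      linarith
  -- heavy edges
  set J2 : Finset (ι × Fin T × Fin d) := S.filter (fun h => ¬ W0 ≤ M h) with hJ2
  have hlog : 0 < Real.log (1 + 1 / δ) := Real.log_pos (by
    have : 0 < 1 / δ := by positivity
    linarith)
  have hheavy : (J2.card : ℝ) ≤ (K + 2 * X * (W0 + 1)) / Real.log (1 + 1 / δ) := by
    rw [le_div_iff₀ hlog]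
    have h4 := hbad2 (cut (fun c : ι × Fin T => src c.1) x W0)
        (cut (fun c : ι × Fin T => dst c.1) y W0)
    have h5 := wt_cut src dst T x y W0
    have h6 : Real.exp (J2.card * Real.log (1 + 1 / δ)) ≤
          testH perm (cut (fun c : ι × Fin T => src c.1) x W0)
            (cut (fun c : ι × Fin T => dst c.1) y W0) (1 / δ) r := by
      have hpos : 0 < 1 / δ := by positivity
      rw [Real.exp_nat_mul, Real.exp_log (by linarith)]
      unfold testH
      calc (1 + 1 / δ) ^ J2.card = ∏ _j ∈ J2, (1 + 1 / δ) := by rw [prod_const]
        _ = ∏ j : ι × Fin T × Fin d, (if j ∈ J2 then (1 + 1 / δ) else 1) := by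
            rw [Finset.prod_ite_mem, univ_inter]
        _ ≤ _ := by
            refine prod_le_prod (fun j _ => by split_ifs <;> positivity) (fun h _ => ?_)
            by_cases hj : h ∈ J2
            · rw [if_pos hj]
              have hs : perm h.1 (x (cl h)) = y (cr h) :=
                    (mem_filter.1 (mem_filter.1 hj).1).2
              have hMR : M h ≤ W0 := (not_le.1 (mem_filter.1 hj).2).le
              have hcl : wL (cl h) ≤ W0 := (le_max_left _ _).trans hMR
              have hcr : wR (cr h) ≤ W0 := (le_max_right _ _).trans hMR
              have e1 : cut (fun c : ι × Fin T => src c.1) x W0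
                      ((r.left h).1, (r.left h).2.1) = some (x (cl h)) :=
                    cut_pos _ _ _ _ hcl
              have e2 : cut (fun c : ι × Fin T => dst c.1) y W0
                      ((r.right h).1, (r.right h).2.1) = some (y (cr h)) :=
                    cut_pos _ _ _ _ hcr
              rw [if_pos ⟨x (cl h), e1, by rw [e2, hs]⟩]
            · rw [if_neg hj]
              split_ifs
              · linarith
              · norm_num
    have h7 : Real.exp (-(∑ c ∈ univ with wL c ≤ W0, wL c) - (∑ c ∈ univ with wR c ≤ W0, wR c)
          - 2 * X + J2.card * Real.log (1 + 1 / δ)) < Real.exp K := by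
      rw [Real.exp_add]
      refine lt_of_le_of_lt ?_ h4
      exact mul_le_mul h5 h6 (Real.exp_pos _).le (wt_nonneg _ _ _ _ _)
    have h8 := Real.exp_lt_exp.1 h7
    have h9 : ∀ w : ι × Fin T → ℝ, ∑ c ∈ univ with w c ≤ W0, w c ≤ X * W0 := by
      intro w
      have h10 := Finset.sum_le_card_nsmul (univ.filter (fun c => w c ≤ W0)) w W0
        (fun c hc => (mem_filter.1 hc).2)
      rw [nsmul_eq_mul] at h10
      refine h10.trans (mul_le_mul_of_nonneg_right ?_ hW0.le)
      have h11 : (univ.filter (fun c => w c ≤ W0)).card ≤ Fintype.card (ι × Fin T) :=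
        card_le_univ _
      have h12 : (Fintype.card (ι × Fin T) : ℝ) = X := by simp [hX]
      rw [← h12]
      exact_mod_cast h11
    have h13 := h9 wL
    have h14 := h9 wR
    nlinarith
  have hsplit : (S.card : ℝ) = J.card + J2.card := by
    rw [hJ, hJ2, ← Nat.cast_add, Finset.card_filter_add_card_filter_not]
  have : ((univ.filter (fun h : ι × Fin T × Fin d =>
      perm h.1 (x ((r.left h).1, (r.left h).2.1)) =
      y ((r.right h).1, (r.right h).2.1))).card : ℝ) = S.card := by
    congr 1
  rw [this, hsplit]
  linarith

end main

end Pool.Agent.P325d
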