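import Mathlib
import Pool.Agent.Lib.P325d.Defs

/-!
# Spanning trees: the easy half
-/

open Finset

namespace Pool.Agent.P325d

open Pool.Agent.P325f1f.Dich

/-- The simple graph of a unique game on its vertices: the two ends of every edge are adjacent. -/
def gameGraph {U W Ω ι : Type} (I : Game U W Ω ι) : SimpleGraph (U ⊕ W) :=
  SimpleGraph.fromRel (fun a b : U ⊕ W => ∃ e, a = Sum.inl (I.src e) ∧ b = Sum.inr (I.dst e))

variable {U W Ω ι : Type}

/-- The edge `e` joins `a` and `b`. -/
def Joins (I : Game U W Ω ι) (a b : U ⊕ W) (e : ι) : Prop :=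
  (a = Sum.inl (I.src e) ∧ b = Sum.inr (I.dst e)) ∨ (b = Sum.inl (I.src e) ∧ a = Sum.inr (I.dst e))

/-- The edge `e` is satisfied by `z`. -/
def SatBy (I : Game U W Ω ι) (z : U ⊕ W → Ω) (e : ι) : Prop :=
  I.perm e (z (Sum.inl (I.src e))) = z (Sum.inr (I.dst e))

theorem exists_label (I : Game U W Ω ι) (a b : U ⊕ W) (e : ι) (h : Joins I a b e) :
    ∃ ρ : Equiv.Perm Ω, ∀ z : U ⊕ W → Ω, z b = ρ (z a) → SatBy I z e := by
  rcases h with ⟨h1, h2⟩ | ⟨h1, h2⟩
  · refine ⟨I.perm e, fun z hz => ?_⟩
    unfold SatBy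
    rw [← h1, ← h2, hz]
  · refine ⟨(I.perm e).symm, fun z hz => ?_⟩
    unfold SatBy
    rw [← h1, ← h2, hz, Equiv.apply_symm_apply]

theorem adj_joins (I : Game U W Ω ι) (a b : U ⊕ W) (h : (gameGraph I).Adj a b) :
    ∃ e, Joins I a b e := by
  unfold gameGraph at h
  rw [SimpleGraph.fromRel_adj] at h
  rcases h.2 with ⟨e, h1, h2⟩ | ⟨e, h1, h2⟩
  · exact ⟨e, Or.inl ⟨h1, h2⟩⟩
  · exact ⟨e, Or.inr ⟨h1, h2⟩⟩

/-- In a connected game with `N` vertices some labeling satisfies `N - 1` edges. -/
theorem tree_label [Fintype U] [Fintype W] [Fintype ι] [Nonempty Ω] (I : Game U W Ω ι)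
    (hc : (gameGraph I).Connected) :
    ∃ z : U ⊕ W → Ω, ∃ S : Finset ι, Fintype.card U + Fintype.card W ≤ S.card + 1 ∧
      ∀ e ∈ S, SatBy I z e := by
  classical
  obtain ⟨root⟩ := hc.nonempty
  set D : U ⊕ W → ℕ := fun v => (gameGraph I).dist root v with hD
  have hpar : ∀ v, v ≠ root → ∃ p, (gameGraph I).Adj p v ∧ D p + 1 = D v := by
    intro v hv
    have hr : (gameGraph I).Reachable root v := hc.preconnected root v
    obtain ⟨w, hw⟩ := hr.exists_walk_length_eq_dist
    have hpos : 0 < (gameGraph I).dist root v := hr.pos_dist_of_ne (Ne.symm hv)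
    -- the penultimate vertex
    have hnn : ¬ w.Nil := by
      intro hn
      exact hv hn.eq.symm
    refine ⟨w.penultimate, w.adj_penultimate hnn, ?_⟩
    have h1 : w.dropLast.length + 1 = w.length := by
      have := w.length_dropLast_add_one hnn
      exact this
    have h2 : D w.penultimate ≤ w.dropLast.length := SimpleGraph.dist_le _
    have h3 : D v ≤ D w.penultimate + 1 := by
      have h4 := hc.dist_triangle (u := root) (v := w.penultimate) (w := v)
      have h5 : (gameGraph I).dist w.penultimate v = 1 :=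
        SimpleGraph.dist_eq_one_iff_adj.2 (w.adj_penultimate hnn)
      rw [h5] at h4
      exact h4
    have h6 : w.length = D v := hw
    omega
  have hpar' : ∀ v, ∃ p, v ≠ root → (gameGraph I).Adj p v ∧ D p + 1 = D v := by
    intro v
    by_cases hv : v = root
    · exact ⟨root, fun h => absurd hv h⟩
    · obtain ⟨p, hp⟩ := hpar v hv
      exact ⟨p, fun _ => hp⟩
  choose p hp using hpar'
  have hedge : ∀ v, ∃ e : Option ι, v ≠ root → ∃ e', e = some e' ∧ Joins I (p v) v e' := by
    intro v
    by_cases hv : v = root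
    · exact ⟨none, fun h => absurd hv h⟩
    · obtain ⟨e, he⟩ := adj_joins I (p v) v (hp v hv).1
      exact ⟨some e, fun _ => ⟨e, rfl, he⟩⟩
  choose ed hed using hedge
  have hrho : ∀ v, ∃ ρ : Equiv.Perm Ω, v ≠ root → ∀ z : U ⊕ W → Ω, z v = ρ (z (p v)) →
      ∀ e, ed v = some e → SatBy I z e := by
    intro v
    by_cases hv : v = root
    · exact ⟨1, fun h => absurd hv h⟩
    · obtain ⟨e', he', hj⟩ := hed v hv
      obtain ⟨ρ, hρ⟩ := exists_label I _ _ e' hj
      refine ⟨ρ, fun _ z hz e he => ?_⟩
      rw [he'] at he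
      cases he
      exact hρ z hz
  choose ρ hρ using hrho
  have hlab : ∀ n : ℕ, ∃ z : U ⊕ W → Ω, ∀ v, v ≠ root → D v ≤ n → z v = ρ v (z (p v)) := by
    intro n
    induction n with
    | zero =>
      refine ⟨fun _ => Classical.arbitrary Ω, fun v hv hn => ?_⟩
      have := (hp v hv).2
      omega
    | succ n ih =>
      obtain ⟨z, hz⟩ := ih
      refine ⟨fun v => if D v = n + 1 then ρ v (z (p v)) else z v, fun v hv hn => ?_⟩
      have h1 := (hp v hv).2
      have h2 : ¬ D (p v) = n + 1 := by omega
      by_cases h3 : D v = n + 1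
      · simp only [h3, if_true, h2, if_false]
      · simp only [h3, if_false, h2]
        exact hz v hv (by omega)
  obtain ⟨z, hz⟩ := hlab (∑ v, D v)
  have hz' : ∀ v, v ≠ root → z v = ρ v (z (p v)) := fun v hv =>
    hz v hv (Finset.single_le_sum (f := D) (fun _ _ => Nat.zero_le _) (mem_univ v))
  refine ⟨z, (univ.erase root).biUnion (fun v => (ed v).toFinset), ?_, ?_⟩
  · have hcard : ((univ.erase root).biUnion (fun v => (ed v).toFinset)).card =
        (univ.erase root).card := by
      rw [card_biUnion]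
      · rw [Finset.card_eq_sum_ones]
        refine sum_congr rfl (fun v hv => ?_)
        obtain ⟨e', he', _⟩ := hed v (ne_of_mem_erase hv)
        rw [he']
        simp
      · intro v hv v' hv' hne
        change Disjoint (ed v).toFinset (ed v').toFinset
        rw [Finset.disjoint_left]
        rw [Finset.mem_coe] at hv hv'
        intro e he he'
        obtain ⟨e1, he1, hj1⟩ := hed v (ne_of_mem_erase hv)
        obtain ⟨e2, he2, hj2⟩ := hed v' (ne_of_mem_erase hv')
        rw [he1, Option.mem_toFinset, Option.mem_some_iff] at he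
        rw [he2, Option.mem_toFinset, Option.mem_some_iff] at he'
        subst he
        subst he'
        have hd1 := (hp v (ne_of_mem_erase hv)).2
        have hd2 := (hp v' (ne_of_mem_erase hv')).2
        rcases hj1 with ⟨a1, a2⟩ | ⟨a1, a2⟩ <;> rcases hj2 with ⟨b1, b2⟩ | ⟨b1, b2⟩
        · exact hne (a2.trans b2.symm)
        · have h3 : p v = v' := a1.trans b1.symm
          have h4 : p v' = v := b2.trans a2.symm
          rw [h3] at hd1
          rw [h4] at hd2
          omega
        · have h3 : p v = v' := a2.trans b2.symm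
          have h4 : p v' = v := b1.trans a1.symm
          rw [h3] at hd1
          rw [h4] at hd2
          omega
        · exact hne (a1.trans b1.symm)
    rw [hcard, card_erase_of_mem (mem_univ root), card_univ, Fintype.card_sum]
    omega
  · intro e he
    rw [mem_biUnion] at he
    obtain ⟨v, hv, hev⟩ := he
    rw [Option.mem_toFinset] at hev
    exact hρ v (ne_of_mem_erase hv) z (hz' v (ne_of_mem_erase hv)) e hev

/-- Every connected unique game with `N` vertices and all degrees at most `d` has value at least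
`(2 / d) (1 - 1 / N)`. -/
theorem easy [Fintype U] [Fintype W] [Fintype ι] [DecidableEq U] [DecidableEq W] [Nonempty ι]
    [Nonempty Ω] (d : ℕ)
    (hd : 1 ≤ d) (I : Game U W Ω ι) (hc : (gameGraph I).Connected)
    (hU : ∀ u, (univ.filter (fun e => I.src e = u)).card ≤ d)
    (hW : ∀ w, (univ.filter (fun e => I.dst e = w)).card ≤ d) :
    2 / (d : ℝ) * (1 - 1 / (Fintype.card U + Fintype.card W : ℝ)) ≤ I.value := by
  classical
  obtain ⟨z, S, hS, hsat⟩ := tree_label I hc
  have h1 : Fintype.card ι ≤ Fintype.card U * d := by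
    have : Fintype.card ι = ∑ u : U, (univ.filter (fun e => I.src e = u)).card := by
      rw [← Finset.card_eq_sum_card_fiberwise (f := I.src) (s := univ) (t := univ)
        (fun _ _ => by simp), card_univ]
    rw [this]
    refine (sum_le_sum (fun u _ => hU u)).trans ?_
    rw [sum_const, card_univ, smul_eq_mul]
  have h2 : Fintype.card ι ≤ Fintype.card W * d := by
    have : Fintype.card ι = ∑ w : W, (univ.filter (fun e => I.dst e = w)).card := by
      rw [← Finset.card_eq_sum_card_fiberwise (f := I.dst) (s := univ) (t := univ)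
        (fun _ _ => by simp), card_univ]
    rw [this]
    refine (sum_le_sum (fun u _ => hW u)).trans ?_
    rw [sum_const, card_univ, smul_eq_mul]
  have h3 := le_value I (fun u => z (Sum.inl u)) (fun w => z (Sum.inr w))
  refine le_trans ?_ h3
  unfold Game.satFrac
  have hm : (0 : ℝ) < Fintype.card ι := by exact_mod_cast Fintype.card_pos
  rw [le_div_iff₀ hm]
  have h4 : (S.card : ℝ) ≤ ((univ.filter (fun e => I.perm e (z (Sum.inl (I.src e))) =
      z (Sum.inr (I.dst e)))).card : ℝ) := by
    exact_mod_cast card_le_card (fun e he => mem_filter.2 ⟨mem_univ _, hsat e he⟩)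
  refine le_trans ?_ (le_trans h4 (le_of_eq (by congr!)))
  have h5 : (Fintype.card U + Fintype.card W : ℝ) ≤ S.card + 1 := by exact_mod_cast hS
  have h6 : (Fintype.card ι : ℝ) ≤ Fintype.card U * d := by exact_mod_cast h1
  have h7 : (Fintype.card ι : ℝ) ≤ Fintype.card W * d := by exact_mod_cast h2
  have hd' : (0 : ℝ) < d := by exact_mod_cast hd
  set N : ℝ := Fintype.card U + Fintype.card W with hN
  have h8 : 2 * (Fintype.card ι : ℝ) ≤ d * N := by rw [hN]; linarith
  have hNpos : 0 < N := by nlinarith
  have hN1 : 0 ≤ 1 - 1 / N := by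
    have hN1' : (1 : ℝ) ≤ N := by
      obtain ⟨e⟩ := ‹Nonempty ι›
      have : (1 : ℝ) ≤ Fintype.card U := by
        exact_mod_cast Fintype.card_pos_iff.2 ⟨I.src e⟩
      have h9 : (0 : ℝ) ≤ Fintype.card W := Nat.cast_nonneg _
      linarith
    rw [sub_nonneg, div_le_one hNpos]
    exact hN1'
  calc 2 / (d : ℝ) * (1 - 1 / N) * Fintype.card ι
      = (1 - 1 / N) * (2 * Fintype.card ι) / d := by ring
    _ ≤ (1 - 1 / N) * (d * N) / d := by gcongr
    _ = N - 1 := by field_simp
    _ ≤ S.card := by linarith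

end Pool.Agent.P325d
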